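import Pool.Agent.H37.S3.Defs

/-!
# Degree control on a leaf: statements of the board ks3

The numbers refer to `K3_S3.md`. Everything is for one leaf (one value of the label `y`).
-/

set_option autoImplicit false

namespace Pool.KS3

open Finset Real
open Pool.Agent.H49.Ent Pool.Agent.H32.Dense Pool.STK Pool.KAF Pool.KAL

/-- Row SML, (3.4)(a), (b): choice of the polynomial on a bad cube. -/
def SMLStmt : Prop :=
  ∀ (n D j k₀ : ℕ) (C₀ : ℝ), (j + n).choose n < (D + n + 1).choose (n + 1) → 1 ≤ C₀ →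
    ∃ C : ℝ, 1 ≤ C ∧ ∀ (K M : ℝ) (G : MvPolynomial (Fin n) ℝ) (a a' : Fin n → ℝ),
      1 ≤ K → K ^ (j + 2) ≤ M → RegG G a (1 / K) k₀ C₀ →
      Bad G a (1 / K) D (K ^ (j + 1) / M) →
      (∀ i, a i ≤ a' i ∧ a' i + 1 / K ^ 2 ≤ a i + 1 / K) →
      ∃ P : MvPolynomial (Option (Fin n)) ℝ, P ≠ 0 ∧ P.totalDegree ≤ D ∧
        cs a (1 / K) (gr G P) = 1 ∧
        ∀ z : Option (Fin n) → ℝ, (fun i => z (some i)) ∈ cube a' (1 / K ^ 2) →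
          |z none - MvPolynomial.eval (fun i => z (some i)) G| ≤ C₀ / M →
          Psi P (C₀ / M) z ≤ C / K ^ (j + 1)

/-- Row FIL, (3.4)(d), (f): filling a cube. `c` is the context, `Y` are the base coordinates inside
the cube, `z` the point, `S` a lower bound for the jet size at some point of the cube. -/
def FILStmt : Prop :=
  ∀ (n D k₀ : ℕ) (C₀ : ℝ), 1 ≤ C₀ → ∃ (κ : ℕ) (C : ℝ), 0 ≤ C ∧
    ∀ (Ω Γ : Type) [Fintype Ω] (p : Ω → ℝ) (R K : ℕ) (c : Ω → Γ) (Y : Ω → Fin n → ℕ)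
      (z : Ω → Option (Fin n) → ℝ) (a : Γ → Fin n → ℝ) (G : Γ → MvPolynomial (Fin n) ℝ)
      (P : Γ → MvPolynomial (Option (Fin n)) ℝ) (S : Γ → ℝ), IsLaw p → 1 ≤ K → K ≤ R →
      (∀ ω, 0 < p ω → ∀ i, Y ω i < R) →
      (∀ ω, 0 < p ω → P (c ω) ≠ 0 ∧ (P (c ω)).totalDegree ≤ D) →
      (∀ ω, 0 < p ω → RegG (G (c ω)) (a (c ω)) (1 / K) k₀ C₀) →
      (∀ ω, 0 < p ω → ∀ i, z ω (some i) = a (c ω) i + (Y ω i : ℝ) / (K * R)) →
      (∀ ω, 0 < p ω →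
        |z ω none - MvPolynomial.eval (fun i => z ω (some i)) (G (c ω))| ≤ C₀ / (K * R)) →
      (∀ ω, 0 < p ω → 0 < S (c ω) ∧ ∃ z' : Option (Fin n) → ℝ,
        (fun i => z' (some i)) ∈ cube (a (c ω)) (1 / K) ∧ |z' none - z ω none| ≤ C₀ ∧
        |z' none - MvPolynomial.eval (fun i => z' (some i)) (G (c ω))| ≤ C₀ / (K * R) ∧
        S (c ω) ≤ Psi (P (c ω)) (C₀ / (K * R)) z') →
      Ex p (fun ω => Real.log (S (c ω))) ≤
        Ex p (fun ω => Real.log (Psi (P (c ω)) (C₀ / (K * R)) (z ω))) +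
          κ * ((n * Real.log R - CH p Y c) + C)

/-- Row LIN, (3.2), (3.3): the jet size along a line. -/
def LINStmt : Prop :=
  ∀ (n D : ℕ) (C₀ : ℝ), 1 ≤ C₀ → ∃ c₁ : ℝ, 0 ≤ c₁ ∧ ∀ (M : ℕ)
    (P : MvPolynomial (Option (Fin n)) ℝ) (A B : Option (Fin n) → ℝ), 1 ≤ M → P ≠ 0 →
    P.totalDegree ≤ D → (∀ i, |B i| ≤ C₀) →
    ∃ (m : ℝ) (q : Polynomial ℝ), q.natDegree ≤ D ∧
      (∃ s ∈ Set.Icc (0 : ℝ) 1, Real.exp m ≤ |q.eval s|) ∧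
      ∀ t ∈ Set.Icc (0 : ℝ) 1, ∀ z : Option (Fin n) → ℝ,
        (∀ i, |z i - (A i + t * B i)| ≤ C₀ / M) →
        |q.eval t| ≤ Real.exp (Real.log (Psi P (C₀ / M) z) + c₁) ∧
        m - D * Real.log M ≤ Real.log (Psi P (C₀ / M) z) + c₁ ∧
        Real.log (Psi P (C₀ / M) z) ≤ m + c₁

/-- Row CHN, 3.0: the chain. -/
def CHNStmt : Prop :=
  ∀ (Ω Λ Ξ : Type) [Fintype Ω] (p : Ω → ℝ) (lam : Ω → Λ) (x : Ω → Ξ) (N : ℕ), IsLaw p →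
    ∃ (W : Type) (_ : Fintype W) (q : W → ℝ) (o o' : ℕ → W → Ω) (l : ℕ → W → Λ)
      (y : ℕ → W → Ξ), IsChain p lam x N q o o' l y

/-- Row COR, (3.4): if all the cubes are bad then they are not small. -/
def CORStmt : Prop :=
  ∀ (n D j k₀ : ℕ) (C₀ : ℝ), (j + n).choose n < (D + n + 1).choose (n + 1) → 6 * n * D ≤ j →
    1 ≤ C₀ → ∃ C : ℝ, 0 ≤ C ∧
    ∀ (Ω Λ Ξ W : Type) [Fintype Ω] [Fintype W] (p : Ω → ℝ) (lam : Ω → Λ) (x : Ω → Ξ)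
      (T : Ξ → ℕ) (pos : Ξ → Option (Fin n) → ℕ) (A B : Λ → Option (Fin n) → ℝ)
      (G : (Option (Fin n) → ℕ) → MvPolynomial (Fin n) ℝ) (K R M N : ℕ) (q : W → ℝ)
      (o o' : ℕ → W → Ω) (l : ℕ → W → Λ) (y : ℕ → W → Ξ) (e₁ e₂ e₃ e₄ : ℝ),
      M = K * (K * R) → 1 ≤ K → K ^ (j + 2) ≤ M →
      Leaf n M C₀ p lam x T pos A B → IsChain p lam x N q o o' l y →
      (∀ ω, 0 < p ω → RegG (G (cel (K * R) pos (x ω))) (crn M (K * R) (cel (K * R) pos (x ω)))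
        (1 / K) k₀ C₀) →
      (∀ ω, 0 < p ω → |rp M pos (x ω) none - MvPolynomial.eval
        (fun i => rp M pos (x ω) (some i)) (G (cel (K * R) pos (x ω)))| ≤ C₀ / M) →
      (∀ ω, 0 < p ω → Bad (G (cel (K * R) pos (x ω))) (crn M (K * R) (cel (K * R) pos (x ω)))
        (1 / K) D (K ^ (j + 1) / M)) →
      0 ≤ e₁ → 0 ≤ e₂ → 0 ≤ e₃ → 0 ≤ e₄ →
      Real.log M - CH p (fun ω => T (x ω)) lam ≤ e₁ →
      n * Real.log ((K * R : ℕ) : ℝ) -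
        CH p (fun ω => bas pos (x ω)) (fun ω => cel (K * R) pos (x ω)) ≤ e₂ →
      H p x ≤ n * Real.log M + e₃ →
      H p x - CH q (y N) (y 0) ≤ e₄ →
      Real.log K ≤ C * (e₂ + e₃ + e₄ + N * (e₁ + 1) + 1)

end Pool.KS3
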