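import Pool.Agent.H37.S3.CI

/-!
# The chain
-/

set_option autoImplicit false

namespace Pool.KS3

open Finset Real
open Pool.Agent.H49.Ent Pool.Agent.H32.Dense Pool.STK Pool.KAF Pool.KAL

section

variable {Ω Ω' S T U V : Type} [Fintype Ω] [Fintype Ω'] {p : Ω → ℝ}

/-- Conditional independence and marginals. -/
lemma CI.marg {q : Ω' → ℝ} {pr : Ω' → Ω} (h : Marg q p pr) {A : Ω → S} {B : Ω → T} {Z : Ω → U}
    (hc : CI p A B Z) : CI q (fun w => A (pr w)) (fun w => B (pr w)) (fun w => Z (pr w)) := by
  unfold CI at hc ⊢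
  rw [h.CH A Z, ← hc]
  exact h.CH A (fun ω => (B ω, Z ω))

end

section

variable {Ω₁ Ω₂ S T U V Z : Type} [Fintype Ω₁] [Fintype Ω₂] {p₁ : Ω₁ → ℝ} {p₂ : Ω₂ → ℝ}
  {Z₁ : Ω₁ → Z} {Z₂ : Ω₂ → Z}

/-- In a glued law the two parts are independent given the common variable. -/
lemma CI_glue (h₁ : ∀ ω, 0 ≤ p₁ ω) (h₂ : ∀ ω, 0 ≤ p₂ ω)
    (hZ : ∀ z, law p₁ Z₁ z = law p₂ Z₂ z) (A : Ω₁ → S) (B : Ω₂ → T) :
    CI (glue p₁ p₂ Z₁ Z₂) (fun w => A w.1) (fun w => B w.2) (fun w => Z₁ w.1) := by
  unfold CI
  have m1 : Marg (glue p₁ p₂ Z₁ Z₂) p₁ (fun w => w.1) := marg_fst h₁ hZ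
  have hg := glue_nonneg (Z₁ := Z₁) (Z₂ := Z₂) h₁ h₂
  rw [m1.CH A Z₁]
  rw [← CH_glue_fst h₁ h₂ hZ A (Y := Z₁) B (fun _ _ _ _ h => h)]
  refine CH_congr hg (fun _ _ _ _ h => (Prod.ext_iff.mp h).1)
    (fun _ _ _ _ h => (Prod.ext_iff.mp h).1) ?_ ?_ <;>
  · intro ω ω' _ _ h
    simp only [Prod.mk.injEq] at h ⊢
    tauto

end

theorem chn_thm : CHNStmt := by
  classical
  intro Ω Λ Ξ _ p lam x N hp
  induction N with
  | zero =>
    exact ⟨Ω, inferInstance, p, fun _ w => w, fun _ w => w, fun _ w => lam w, fun _ w => x w,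
      { isLaw := hp
        marg := fun i hi => absurd hi (Nat.not_lt_zero i)
        marg' := fun i hi => absurd hi (Nat.not_lt_zero i)
        line := fun _ _ i hi => absurd hi (Nat.not_lt_zero i)
        line' := fun _ _ i hi => absurd hi (Nat.not_lt_zero i)
        start := fun _ _ i hi => absurd hi (Nat.not_lt_zero i)
        stop := fun _ _ i hi => absurd hi (Nat.not_lt_zero i)
        cell := fun _ _ _ => rfl
        ci1 := fun i hi => absurd hi (Nat.not_lt_zero i)
        ci2 := fun i hi => absurd hi (Nat.not_lt_zero i)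
        ci3 := fun i hi => absurd hi (Nat.not_lt_zero i)
        ci4 := fun i hi => absurd hi (Nat.not_lt_zero i) }⟩
  | succ N ih =>
    obtain ⟨W, instW, q, o, o', l, y, hw⟩ := ih
    have hq0 := hw.isLaw.nonneg
    have hs0 := dbl_nonneg (b := lam) hp.nonneg
    set s : Ω × Ω → ℝ := dbl p lam with hs
    have hZ : ∀ z, law q (y N) z = law s (fun v => x v.1) z := by
      intro z
      rw [hw.cell N le_rfl, (dbl_fst (b := lam) hp.nonneg).law x z]
    set Q := glue q s (y N) (fun v => x v.1) with hQ
    have hQ0 : ∀ w, 0 ≤ Q w := glue_nonneg hq0 hs0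
    have m1 : Marg Q q (fun w => w.1) := marg_fst hq0 hZ
    have m2 : Marg Q s (fun w => w.2) := marg_snd hs0 hZ
    have hQl : IsLaw Q := ⟨hQ0, by rw [m1.sum]; exact hw.isLaw.sum_one⟩
    have hpos : ∀ w, 0 < Q w → 0 < q w.1 ∧ 0 < s w.2 ∧ y N w.1 = x w.2.1 :=
      fun w hw' => (glue_pos_iff hq0 hs0 w).mp hw'
    -- the new variables
    set O : ℕ → W × (Ω × Ω) → Ω := fun i w => if i < N then o i w.1 else w.2.1 with hO
    set O' : ℕ → W × (Ω × Ω) → Ω := fun i w => if i < N then o' i w.1 else w.2.2 with hO'
    set L : ℕ → W × (Ω × Ω) → Λ := fun i w => if i < N then l i w.1 else lam w.2.1 with hL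
    set Y : ℕ → W × (Ω × Ω) → Ξ := fun i w => if i ≤ N then y i w.1 else x w.2.2 with hY
    have eO : ∀ i < N, O i = fun w => o i w.1 := by
      intro i hi
      funext w
      simp only [hO, if_pos hi]
    have eO' : ∀ i < N, O' i = fun w => o' i w.1 := by
      intro i hi
      funext w
      simp only [hO', if_pos hi]
    have eL : ∀ i < N, L i = fun w => l i w.1 := by
      intro i hi
      funext w
      simp only [hL, if_pos hi]
    have eY : ∀ i ≤ N, Y i = fun w => y i w.1 := by
      intro i hi
      funext w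
      simp only [hY, if_pos hi]
    have eON : O N = fun w => w.2.1 := by
      funext w
      simp only [hO, lt_irrefl, if_false]
    have eON' : O' N = fun w => w.2.2 := by
      funext w
      simp only [hO', lt_irrefl, if_false]
    have eLN : L N = fun w => lam w.2.1 := by
      funext w
      simp only [hL, lt_irrefl, if_false]
    have eYN : Y (N + 1) = fun w => x w.2.2 := by
      funext w
      simp only [hY, Nat.succ_le_iff, lt_irrefl, if_false]
    -- independence of the two parts
    have g : ∀ (S T : Type) (A : W → S) (B : Ω × Ω → T),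
        CI Q (fun w => A w.1) (fun w => B w.2) (fun w => y N w.1) :=
      fun S T A B => CI_glue hq0 hs0 hZ A B
    -- the new point given the new line
    have hnew : ∀ (S : Type) (A : W → S),
        CI Q (fun w => x w.2.2) (fun w => (A w.1, w.2.1)) (fun w => lam w.2.1) := by
      intro S A
      have e1 : CH Q (fun w => x w.2.2) (fun w => (w.2.1, A w.1)) =
          CH s (fun v => x v.2) (fun v => v.1) :=
        CH_glue_snd hq0 hs0 hZ (fun v => x v.2) (Y := fun v => v.1) A
          (fun _ _ _ _ h => congrArg x h)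
      have e2 : CH s (fun v => x v.2) (fun v => v.1) = CH p x lam := by
        rw [← CH_dbl_2 (b := lam) hp.nonneg x (fun w => w)]
        refine CH_congr hs0 (fun _ _ _ _ h => (Prod.ext_iff.mp h).1)
          (fun _ _ _ _ h => (Prod.ext_iff.mp h).1) ?_ ?_
        · intro v v' a b e
          have e' : v.1 = v'.1 := e
          have a1 := dbl_eq hp.nonneg a
          have a2 := dbl_eq hp.nonneg b
          refine Prod.ext ?_ e'
          change lam v.2 = lam v'.2
          rw [← a1, ← a2, e']
        · intro v v' _ _ e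
          exact (Prod.ext_iff.mp e).2
      have e3 : CH Q (fun w => x w.2.2) (fun w => lam w.2.1) = CH p x lam := by
        rw [m2.CH (fun v => x v.2) (fun v => lam v.1)]
        rw [← (dbl_snd (b := lam) hp.nonneg).CH x lam]
        refine CH_congr hs0 (fun _ _ _ _ h => (Prod.ext_iff.mp h).1)
          (fun _ _ _ _ h => (Prod.ext_iff.mp h).1) ?_ ?_
        · intro v v' a b e
          have a1 := dbl_eq hp.nonneg a
          have a2 := dbl_eq hp.nonneg b
          have e' : lam v.1 = lam v'.1 := e
          change lam v.2 = lam v'.2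
          rw [← a1, ← a2, e']
        · intro v v' a b e
          have a1 := dbl_eq hp.nonneg a
          have a2 := dbl_eq hp.nonneg b
          have e' : lam v.2 = lam v'.2 := e
          change lam v.1 = lam v'.1
          rw [a1, a2, e']
      refine CI_of_le hQ0 ?_
      rw [e3, ← e2, ← e1]
      refine CH_mono_cond hQ0 ?_
      intro w w' _ _ h
      simp only [Prod.mk.injEq] at h ⊢
      refine ⟨⟨h.2, h.1⟩, congrArg lam h.1⟩
    refine ⟨W × (Ω × Ω), inferInstance, Q, O, O', L, Y, hQl, ?_, ?_, ?_, ?_, ?_, ?_, ?_, ?_, ?_,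
      ?_, ?_⟩
    · -- marg
      intro i hi
      rcases Nat.lt_succ_iff_lt_or_eq.mp hi with h | h
      · rw [eO i h]
        exact m1.comp (hw.marg i h)
      · subst h
        rw [eON]
        exact m2.comp (dbl_fst hp.nonneg)
    · intro i hi
      rcases Nat.lt_succ_iff_lt_or_eq.mp hi with h | h
      · rw [eO' i h]
        exact m1.comp (hw.marg' i h)
      · subst h
        rw [eON']
        exact m2.comp (dbl_snd hp.nonneg)
    · intro w hw' i hi
      rcases Nat.lt_succ_iff_lt_or_eq.mp hi with h | h
      · rw [eO i h, eL i h]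
        exact hw.line w.1 (hpos w hw').1 i h
      · subst h
        rw [eON, eLN]
    · intro w hw' i hi
      rcases Nat.lt_succ_iff_lt_or_eq.mp hi with h | h
      · rw [eO' i h, eL i h]
        exact hw.line' w.1 (hpos w hw').1 i h
      · subst h
        rw [eON', eLN]
        exact (dbl_eq hp.nonneg (hpos w hw').2.1).symm
    · intro w hw' i hi
      rcases Nat.lt_succ_iff_lt_or_eq.mp hi with h | h
      · rw [eO i h, eY i h.le]
        exact hw.start w.1 (hpos w hw').1 i h
      · subst h
        rw [eON, eY i le_rfl]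
        exact (hpos w hw').2.2.symm
    · intro w hw' i hi
      rcases Nat.lt_succ_iff_lt_or_eq.mp hi with h | h
      · rw [eO' i h, eY (i + 1) h]
        exact hw.stop w.1 (hpos w hw').1 i h
      · subst h
        rw [eON', eYN]
    · intro i hi z
      rcases Nat.le_or_eq_of_le_succ hi with h | h
      · rw [eY i h, ← hw.cell i h z]
        exact m1.law (y i) z
      · subst h
        rw [eYN]
        rw [(m2.comp (dbl_snd (b := lam) hp.nonneg)).law x z]
    · -- ci1
      intro i hi
      rw [eY 0 (Nat.zero_le _)]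
      rcases Nat.lt_succ_iff_lt_or_eq.mp hi with h | h
      · rw [eY i h.le, eL i h]
        have e1 := m1.CH (y 0) (fun w => (y i w, l i w))
        have e2 := m1.CH (y 0) (y i)
        rw [e1, e2]
        exact hw.ci1 i h
      · subst h
        rw [eY i le_rfl, eLN]
        have h1 := g Ξ Λ (y 0) (fun v => lam v.1)
        unfold CI at h1
        rw [← h1]
        refine CH_congr hQ0 (fun _ _ _ _ h => (Prod.ext_iff.mp h).1)
          (fun _ _ _ _ h => (Prod.ext_iff.mp h).1) ?_ ?_ <;>
        · intro ω ω' _ _ h
          simp only [Prod.mk.injEq] at h ⊢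
          tauto
    · -- ci2
      intro i hi
      rw [eY 0 (Nat.zero_le _), eYN]
      rcases Nat.lt_succ_iff_lt_or_eq.mp hi with h | h
      · rw [eY (i + 1) h, eL i h]
        -- old independence
        have h1 : CI q (y 0) (fun w => (y (i + 1) w, y N w)) (l i) := by
          refine CI_of_le hq0 ?_
          rw [← hw.ci2 i h]
          refine CH_mono_cond hq0 ?_
          intro ω ω' _ _ h
          simp only [Prod.mk.injEq] at h ⊢
          tauto
        have h2 : CI Q (fun w => y 0 w.1) (fun w => (y (i + 1) w.1, y N w.1))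
            (fun w => l i w.1) := h1.marg m1
        have h3 : CI Q (fun w => x w.2.2) (fun w => (y 0 w.1, (y (i + 1) w.1, l i w.1)))
            (fun w => y N w.1) :=
          (g _ _ (fun w => (y 0 w, (y (i + 1) w, l i w))) (fun v => x v.2)).symm hQ0
        have h4 : CI Q (fun w => y 0 w.1) (fun w => x w.2.2)
            (fun w => ((y (i + 1) w.1, y N w.1), l i w.1)) := by
          have h5 : CI Q (fun w => x w.2.2) (fun w => ((y (i + 1) w.1, l i w.1), y 0 w.1))
              (fun w => y N w.1) := h3.mono_right hQ0 (by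
            intro ω ω' _ _ h
            simp only [Prod.mk.injEq] at h ⊢
            tauto)
          have h6 := (h5.weak hQ0).symm hQ0
          refine h6.congr hQ0 ?_ ?_ <;>
          · intro ω ω' _ _ h
            simp only [Prod.mk.injEq] at h ⊢
            tauto
        have h7 := (h2.chain hQ0 h4).mono_right hQ0 (B' := fun w => (y (i + 1) w.1, x w.2.2)) (by
          intro ω ω' _ _ h
          simp only [Prod.mk.injEq] at h ⊢
          tauto)
        unfold CI at h7
        rw [← h7]
        refine CH_congr hQ0 (fun _ _ _ _ h => (Prod.ext_iff.mp h).1)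
          (fun _ _ _ _ h => (Prod.ext_iff.mp h).1) ?_ ?_ <;>
        · intro ω ω' _ _ h
          simp only [Prod.mk.injEq] at h ⊢
          tauto
      · subst h
        rw [eYN, eLN]
        have h1 := ((hnew Ξ (y 0)).mono_right hQ0 (B' := fun w => y 0 w.1) (by
          intro ω ω' _ _ h
          simp only [Prod.mk.injEq] at h ⊢
          tauto)).symm hQ0
        unfold CI at h1
        rw [← h1]
        refine CH_congr hQ0 (fun _ _ _ _ h => (Prod.ext_iff.mp h).1)
          (fun _ _ _ _ h => (Prod.ext_iff.mp h).1) ?_ ?_ <;>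
        · intro ω ω' _ _ h
          simp only [Prod.mk.injEq] at h ⊢
          tauto
    · -- ci3
      intro i hi
      rw [eYN]
      rcases Nat.lt_succ_iff_lt_or_eq.mp hi with h | h
      · rw [eY i h.le, eL i h]
        have h1 : CI q (y N) (y i) (l i) := hw.ci3 i h
        have h2 : CI Q (fun w => y i w.1) (fun w => y N w.1) (fun w => l i w.1) :=
          (h1.marg m1).symm hQ0
        have h3 : CI Q (fun w => y i w.1) (fun w => x w.2.2)
            (fun w => (y N w.1, l i w.1)) := by
          have h5 := ((g _ _ (fun w => (l i w, y i w)) (fun v => x v.2)).symm hQ0).weak hQ0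
          refine (h5.symm hQ0).congr hQ0 ?_ ?_ <;>
          · intro ω ω' _ _ h
            simp only [Prod.mk.injEq] at h ⊢
            tauto
        exact ((h2.chain hQ0 h3).mono_right hQ0 (B' := fun w => x w.2.2) (by
          intro ω ω' _ _ h
          simp only [Prod.mk.injEq] at h ⊢
          tauto)).symm hQ0
      · subst h
        rw [eY i le_rfl, eLN]
        exact (hnew Ξ (y i)).mono_right hQ0 (B' := fun w => y i w.1) (by
          intro ω ω' _ _ h
          simp only [Prod.mk.injEq] at h ⊢
          tauto)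
    · -- ci4
      intro i hi
      rw [eYN]
      rcases Nat.lt_succ_iff_lt_or_eq.mp hi with h | h
      · rw [eY (i + 1) h, eL i h]
        have h1 : CI q (y N) (l i) (y (i + 1)) := by
          refine CI_of_le hq0 ?_
          rw [← hw.ci4 i h]
          refine CH_mono_cond hq0 ?_
          intro ω ω' _ _ h
          simp only [Prod.mk.injEq] at h ⊢
          tauto
        have h2 : CI Q (fun w => l i w.1) (fun w => y N w.1) (fun w => y (i + 1) w.1) :=
          (h1.marg m1).symm hQ0
        have h3 : CI Q (fun w => l i w.1) (fun w => x w.2.2)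
            (fun w => (y N w.1, y (i + 1) w.1)) := by
          have h5 := ((g _ _ (fun w => (y (i + 1) w, l i w)) (fun v => x v.2)).symm hQ0).weak hQ0
          refine (h5.symm hQ0).congr hQ0 ?_ ?_ <;>
          · intro ω ω' _ _ h
            simp only [Prod.mk.injEq] at h ⊢
            tauto
        have h6 := ((h2.chain hQ0 h3).mono_right hQ0 (B' := fun w => x w.2.2) (by
          intro ω ω' _ _ h
          simp only [Prod.mk.injEq] at h ⊢
          tauto)).symm hQ0
        unfold CI at h6
        rw [← h6]
        refine CH_congr hQ0 (fun _ _ _ _ h => (Prod.ext_iff.mp h).1)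
          (fun _ _ _ _ h => (Prod.ext_iff.mp h).1) ?_ ?_ <;>
        · intro ω ω' _ _ h
          simp only [Prod.mk.injEq] at h ⊢
          tauto
      · subst h
        rw [eYN]
        rw [CH_eq_zero hQ0 (fun _ _ _ _ h => h), CH_eq_zero hQ0]
        intro _ _ _ _ h
        exact (Prod.ext_iff.mp h).1

end Pool.KS3
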