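import Pool.Agent.H37.S3.CI

/-!
# Preliminaries for the assembly
-/

set_option autoImplicit false

namespace Pool.KS3

open Finset Real
open Pool.Agent.H49.Ent Pool.Agent.H32.Dense Pool.STK Pool.KAF Pool.KAL

/-- `I(f X; Z | g X) ≤ I(X; Z)`. -/
lemma mi_le {Ω S T U V : Type} [Fintype Ω] {p : Ω → ℝ} (hp : IsLaw p) (X : Ω → S) (f : S → T)
    (g : S → U) (Z : Ω → V) :
    CH p (fun ω => f (X ω)) (fun ω => g (X ω)) - (H p X - CH p X Z) ≤
      CH p (fun ω => f (X ω)) (fun ω => (g (X ω), Z ω)) := by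
  have hp0 := hp.nonneg
  -- `H X = H (g X) + H (f X | g X) + H (X | f X, g X)`
  have a1 : H p X = H p (fun ω => g (X ω)) + CH p (fun ω => f (X ω)) (fun ω => g (X ω)) +
      CH p X (fun ω => (f (X ω), g (X ω))) := by
    unfold CH
    have : H p (fun ω => (X ω, (f (X ω), g (X ω)))) = H p X := by
      refine H_congr hp0 ?_ ?_
      · intro ω ω' _ _ h
        simp only [h]
      · intro ω ω' _ _ h
        exact (Prod.ext_iff.mp h).1
    rw [this]
    ring
  -- the same given `Z`
  have b1 := CH_chain hp0 X (fun ω => (f (X ω), g (X ω))) Z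
  have b2 := CH_chain hp0 (fun ω => f (X ω)) (fun ω => g (X ω)) Z
  have b3 : CH p (fun ω => (X ω, (f (X ω), g (X ω)))) Z = CH p X Z := by
    refine CH_congr hp0 ?_ ?_ (fun _ _ _ _ h => h) (fun _ _ _ _ h => h)
    · intro ω ω' _ _ h
      exact (Prod.ext_iff.mp (Prod.ext_iff.mp h).1).1
    · intro ω ω' _ _ h
      have := (Prod.ext_iff.mp h).1
      simp only at this ⊢
      rw [this]
  have b4 : CH p X (fun ω => ((f (X ω), g (X ω)), Z ω)) ≤
      CH p X (fun ω => (f (X ω), g (X ω))) :=
    CH_mono_cond hp0 (fun _ _ _ _ h => (Prod.ext_iff.mp h).1)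
  have b5 : CH p (fun ω => g (X ω)) Z ≤ H p (fun ω => g (X ω)) := by
    unfold CH
    have := subadd hp0 hp.sum_one (X := fun ω => g (X ω)) (Y := Z)
      (W := fun ω => (g (X ω), Z ω)) (fun _ _ _ _ h => h)
    linarith only [this]
  linarith only [a1, b1, b2, b3, b4, b5]

/-- Mutual information is symmetric. -/
lemma mi_symm {Ω S T : Type} [Fintype Ω] {p : Ω → ℝ} (hp : ∀ ω, 0 ≤ p ω) (X : Ω → S)
    (Y : Ω → T) : H p X - CH p X Y = H p Y - CH p Y X := by
  unfold CH
  have : H p (fun ω => (X ω, Y ω)) = H p (fun ω => (Y ω, X ω)) := by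
    refine H_congr hp ?_ ?_ <;>
    · intro ω ω' _ _ h
      simp only [Prod.mk.injEq] at h ⊢
      tauto
  linarith only [this]

lemma CH_le_H {Ω S T : Type} [Fintype Ω] {p : Ω → ℝ} (hp : IsLaw p) (X : Ω → S)
    (Y : Ω → T) : CH p X Y ≤ H p X := by
  unfold CH
  have := subadd hp.nonneg hp.sum_one (X := X) (Y := Y)
    (W := fun ω => (X ω, Y ω)) (fun _ _ _ _ h => h)
  linarith only [this]

/-- Means with respect to equal laws. -/
lemma ex_of_law {Ω Ω' S : Type} [Fintype Ω] [Fintype Ω'] {p : Ω → ℝ} {q : Ω' → ℝ} {X : Ω → S}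
    {Y : Ω' → S} (h : ∀ s, law q Y s = law p X s) (g : S → ℝ) :
    ∑ w, q w * g (Y w) = ∑ ω, p ω * g (X ω) := by
  classical
  rw [sum_mul_eq_sum_image q Y g, sum_mul_eq_sum_image p X g]
  have e1 : ∑ s ∈ univ.image Y, law q Y s * g s =
      ∑ s ∈ univ.image Y ∪ univ.image X, law q Y s * g s := by
    refine Finset.sum_subset Finset.subset_union_left fun s _ hs => ?_
    rw [law_eq_zero_of_notMem q Y hs, zero_mul]
  have e2 : ∑ s ∈ univ.image X, law p X s * g s =
      ∑ s ∈ univ.image Y ∪ univ.image X, law p X s * g s := by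
    refine Finset.sum_subset Finset.subset_union_right fun s _ hs => ?_
    rw [law_eq_zero_of_notMem p X hs, zero_mul]
  rw [e1, e2]
  exact Finset.sum_congr rfl fun s _ => by rw [h]

lemma law_comp_eq {Ω Ω' S T : Type} [Fintype Ω] [Fintype Ω'] {p : Ω → ℝ} {q : Ω' → ℝ}
    {X : Ω → S} {Y : Ω' → S} (h : ∀ s, law q Y s = law p X s) (β : S → T) (b : T) :
    law q (fun w => β (Y w)) b = law p (fun ω => β (X ω)) b := by
  classical
  have h1 := ex_of_law h (fun s => if β s = b then (1 : ℝ) else 0)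
  unfold law
  simpa using h1

lemma H_eq_of_lawS3 {Ω Ω' S : Type} [Fintype Ω] [Fintype Ω'] {p : Ω → ℝ} {q : Ω' → ℝ}
    {X : Ω → S} {Y : Ω' → S} (h : ∀ s, law q Y s = law p X s) : H q Y = H p X := by
  unfold H
  rw [ex_of_law h (fun s => Real.log (law q Y s))]
  congr 1
  exact Finset.sum_congr rfl fun ω _ => by rw [h]

/-- Points of equal law have the same support. -/
lemma supp_of_law {Ω Ω' S : Type} [Fintype Ω] [Fintype Ω'] {p : Ω → ℝ} {q : Ω' → ℝ}
    {X : Ω → S} {Y : Ω' → S} (h : ∀ s, law q Y s = law p X s)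
    (hq : ∀ w, 0 ≤ q w) {w : Ω'} (hw : 0 < q w) : ∃ ω, 0 < p ω ∧ X ω = Y w := by
  classical
  by_contra hcon
  push Not at hcon
  have h1 := law_pos hq Y hw
  rw [h] at h1
  have h2 : law p X (Y w) ≤ 0 := by
    unfold law
    refine Finset.sum_nonpos fun ω _ => ?_
    split_ifs with h3
    · by_contra h4
      push Not at h4
      exact hcon ω h4 h3
    · exact le_rfl
  linarith only [h1, h2]

/-- Derivative of a polynomial along a curve. -/
lemma der_line {n : ℕ} (P : MvPolynomial (Fin n) ℝ) (f : Fin n → Polynomial ℝ) :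
    Polynomial.derivative (MvPolynomial.aeval f P) =
      ∑ i, MvPolynomial.aeval f (MvPolynomial.pderiv i P) * Polynomial.derivative (f i) := by
  classical
  induction P using MvPolynomial.induction_on with
  | C a => simp
  | add p q hp hq =>
    simp only [map_add, hp, hq, add_mul, Finset.sum_add_distrib]
  | mul_X p k hp =>
    simp only [map_mul, MvPolynomial.aeval_X, Polynomial.derivative_mul, hp,
      Derivation.leibniz, MvPolynomial.pderiv_X, smul_eq_mul, map_add, add_mul,
      Finset.sum_add_distrib, Finset.sum_mul]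
    rw [add_comm]
    refine congrArg₂ (· + ·) ?_ ?_
    · rw [Finset.sum_eq_single k]
      · simp
      · intro b _ hb
        rw [Pi.single_eq_of_ne (Ne.symm hb)]
        simp
      · intro h
        exact absurd (Finset.mem_univ k) h
    · refine Finset.sum_congr rfl fun i _ => ?_
      ring

/-- Mean value inequality on a cube. -/
lemma mean_value {n : ℕ} (G : MvPolynomial (Fin n) ℝ) (a : Fin n → ℝ) (s C₀ : ℝ) (hC : 0 ≤ C₀)
    (h : ∀ y ∈ cube a s, ∀ i, |MvPolynomial.eval y (MvPolynomial.pderiv i G)| ≤ C₀)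
    (y y' : Fin n → ℝ) (hy : y ∈ cube a s) (hy' : y' ∈ cube a s) :
    |MvPolynomial.eval y' G - MvPolynomial.eval y G| ≤ n * C₀ * s := by
  set f : Fin n → Polynomial ℝ := fun i =>
    Polynomial.C (y i) + Polynomial.X * Polynomial.C (y' i - y i) with hf
  set g : Polynomial ℝ := MvPolynomial.aeval f G with hg
  have hev : ∀ (P : MvPolynomial (Fin n) ℝ) (t : ℝ),
      (MvPolynomial.aeval f P : Polynomial ℝ).eval t =
        MvPolynomial.eval (fun i => y i + t * (y' i - y i)) P := by
    intro P t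
    induction P using MvPolynomial.induction_on with
    | C a => simp
    | add p q hp hq => simp only [map_add, Polynomial.eval_add, hp, hq]
    | mul_X p k hp =>
      rw [map_mul, map_mul, Polynomial.eval_mul, hp]
      simp [hf]
  have hmem : ∀ t ∈ Set.Icc (0 : ℝ) 1, (fun i => y i + t * (y' i - y i)) ∈ cube a s := by
    intro t ht i
    have h1 := hy i
    have h2 := hy' i
    constructor
    · nlinarith only [h1, ht, h2, ht.1, ht.2, h1.1, h2.1]
    · nlinarith only [h1, ht, h2, ht.1, ht.2, h1.2, h2.2]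
  obtain ⟨c, hc, hc'⟩ := exists_hasDerivAt_eq_slope (fun t => g.eval t)
    (fun t => g.derivative.eval t) (show (0 : ℝ) < 1 by norm_num) g.continuous.continuousOn
    (fun t _ => g.hasDerivAt t)
  have e0 : g.eval 0 = MvPolynomial.eval y G := by
    rw [hg, hev]
    have : (fun i => y i + 0 * (y' i - y i)) = y := by
      funext i
      ring
    rw [this]
  have e1 : g.eval 1 = MvPolynomial.eval y' G := by
    rw [hg, hev]
    have : (fun i => y i + 1 * (y' i - y i)) = y' := by
      funext i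
      ring
    rw [this]
  have hc2 : MvPolynomial.eval y' G - MvPolynomial.eval y G = g.derivative.eval c := by
    rw [hc', ← e0, ← e1]
    simp
  rw [hc2, hg, der_line, Polynomial.eval_finsetSum]
  refine (Finset.abs_sum_le_sum_abs _ _).trans ?_
  calc ∑ i, |Polynomial.eval c (MvPolynomial.aeval f (MvPolynomial.pderiv i G) *
        Polynomial.derivative (f i))|
      ≤ ∑ _i : Fin n, C₀ * s := by
        refine Finset.sum_le_sum fun i _ => ?_
        rw [Polynomial.eval_mul, abs_mul, hev]
        refine mul_le_mul (h _ (hmem c ⟨hc.1.le, hc.2.le⟩) i) ?_ (abs_nonneg _) hC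
        have : (Polynomial.derivative (f i)).eval c = y' i - y i := by
          simp [hf]
        rw [this, abs_le]
        have h1 := hy i
        have h2 := hy' i
        constructor
        · linarith only [h1, h2, h1.2, h2.1]
        · linarith [h1.1, h2.2]
    _ = n * C₀ * s := by
        rw [Finset.sum_const, Finset.card_univ, Fintype.card_fin, nsmul_eq_mul]
        ring

/-- The supremum on a cube is attained. -/
lemma cs_attained {n : ℕ} (a : Fin n → ℝ) (s : ℝ) (hs : 0 ≤ s) (R : MvPolynomial (Fin n) ℝ) :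
    ∃ y ∈ cube a s, |MvPolynomial.eval y R| = cs a s R := by
  have hK : IsCompact (cube a s) := by
    have : cube a s = Set.pi Set.univ (fun i => Set.Icc (a i) (a i + s)) := by
      ext y
      simp only [cube, Set.mem_ofPred_eq, Set.mem_pi, Set.mem_univ, true_implies, Set.mem_Icc]
    rw [this]
    exact isCompact_univ_pi fun i => isCompact_Icc
  have hne : (cube a s).Nonempty := ⟨a, fun i => ⟨le_rfl, by linarith⟩⟩
  have hc : ContinuousOn (fun y => |MvPolynomial.eval y R|) (cube a s) :=
    (MvPolynomial.continuous_eval R).abs.continuousOn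
  obtain ⟨y, hy, hy'⟩ := hK.exists_isMaxOn hne hc
  refine ⟨y, hy, ?_⟩
  unfold cs
  refine le_antisymm ?_ ?_
  · refine le_csSup ?_ ⟨y, hy, rfl⟩
    exact ⟨|MvPolynomial.eval y R|, by rintro _ ⟨z, hz, rfl⟩; exact hy' hz⟩
  · refine csSup_le ⟨_, ⟨y, hy, rfl⟩⟩ ?_
    rintro _ ⟨z, hz, rfl⟩
    exact hy' hz

lemma le_cs {n : ℕ} (a : Fin n → ℝ) (s : ℝ) (R : MvPolynomial (Fin n) ℝ)
    (y : Fin n → ℝ) (hy : y ∈ cube a s) : |MvPolynomial.eval y R| ≤ cs a s R := by
  have hK : IsCompact (cube a s) := by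
    have : cube a s = Set.pi Set.univ (fun i => Set.Icc (a i) (a i + s)) := by
      ext y
      simp only [cube, Set.mem_ofPred_eq, Set.mem_pi, Set.mem_univ, true_implies, Set.mem_Icc]
    rw [this]
    exact isCompact_univ_pi fun i => isCompact_Icc
  have hc : ContinuousOn (fun y => |MvPolynomial.eval y R|) (cube a s) :=
    (MvPolynomial.continuous_eval R).abs.continuousOn
  obtain ⟨z, hz, hz'⟩ := hK.exists_isMaxOn ⟨y, hy⟩ hc
  unfold cs
  refine le_csSup ?_ ⟨y, hy, rfl⟩
  exact ⟨|MvPolynomial.eval z R|, by rintro _ ⟨u, hu, rfl⟩; exact hz' hu⟩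

lemma eval_gr {n : ℕ} (G : MvPolynomial (Fin n) ℝ) (Q : MvPolynomial (Option (Fin n)) ℝ)
    (y : Fin n → ℝ) : MvPolynomial.eval y (gr G Q) = MvPolynomial.eval (gpt G y) Q := by
  unfold gr gpt
  induction Q using MvPolynomial.induction_on with
  | C a => simp
  | add p q hp hq => rw [map_add, map_add, map_add, hp, hq]
  | mul_X p o hp =>
    rw [map_mul, map_mul, map_mul, hp, MvPolynomial.bind₁_X_right, MvPolynomial.eval_X]
    cases o <;> simp

end Pool.KS3
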