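import Pool.Agent.H37.S3.GO
import Pool.Agent.H37.S3.CHN

/-!
# The backward budget of a second chain
-/

set_option autoImplicit false

namespace Pool.KS3

open Finset Real
open Pool.Agent.H49.Ent Pool.Agent.H32.Dense Pool.STK Pool.KAF Pool.KAL

/-- The backward budget of a chain, for a polynomial depending on a variable `β` which is
independent of the chain given the cells of its end points. -/
lemma back (hLIN : LINStmt) (hBUP : BUPStmt) (n D : ℕ) (C₁ : ℝ) (hC₁ : 1 ≤ C₁) :
    ∃ C : ℝ, 0 ≤ C ∧ ∀ (Ω Λ Ξ W V Γ Δ : Type) [Fintype Ω] [Fintype W] [Fintype V] (p : Ω → ℝ)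
      (lam : Ω → Λ) (x : Ω → Ξ) (T : Ξ → ℕ) (pos : Ξ → Option (Fin n) → ℕ)
      (A B : Λ → Option (Fin n) → ℝ) (M N : ℕ) (q : W → ℝ) (o o' : ℕ → W → Ω) (l : ℕ → W → Λ)
      (y : ℕ → W → Ξ) (c : Ξ → Δ) (r : V → ℝ) (pr : V → W) (β : V → Γ)
      (P : Γ → MvPolynomial (Option (Fin n)) ℝ) (e₁ : ℝ), 1 ≤ M →
      Leaf n M C₁ p lam x T pos A B → IsChain p lam x N q o o' l y → IsLaw r → Marg r q pr →
      CI r β pr (fun v => (c (y 0 (pr v)), c (y N (pr v)))) →
      (∀ v, 0 < r v → P (β v) ≠ 0 ∧ (P (β v)).totalDegree ≤ D) →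
      Real.log M - CH p (fun ω => T (x ω)) lam ≤ e₁ →
      Ex r (fun v => Real.log (Psi (P (β v)) (C₁ / M) (rp M pos (y 0 (pr v))))) ≤
        Ex r (fun v => Real.log (Psi (P (β v)) (C₁ / M) (rp M pos (y N (pr v))))) +
          2 * D * (H p (fun ω => c (x ω)) + N * (e₁ + C)) + N * C := by
  classical
  obtain ⟨c₁, hc₁, hlin⟩ := hLIN n D C₁ hC₁
  obtain ⟨C, hC, hbup⟩ := hBUP D
  refine ⟨C + 2 * c₁, by positivity, ?_⟩
  intro Ω Λ Ξ W V Γ Δ _ _ _ p lam x T pos A B M N q o o' l y c r pr β P e₁ hM hL hch hr hm hci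
    hP he₁
  have hM0 : 0 < M := hM
  have hq0 := hch.isLaw.nonneg
  have hr0 := hr.nonneg
  have hsup : ∀ v, 0 < r v → 0 < q (pr v) := fun v hv => hm.pos hr0 hv
  -- the polynomial along the line
  have hex : ∀ (P : MvPolynomial (Option (Fin n)) ℝ) (a b : Option (Fin n) → ℝ),
      ∃ (m : ℝ) (g : Polynomial ℝ), P ≠ 0 → P.totalDegree ≤ D → (∀ i, |b i| ≤ C₁) →
      g.natDegree ≤ D ∧ (∃ s ∈ Set.Icc (0 : ℝ) 1, Real.exp m ≤ |g.eval s|) ∧
      ∀ t ∈ Set.Icc (0 : ℝ) 1, ∀ z : Option (Fin n) → ℝ,
        (∀ i, |z i - (a i + t * b i)| ≤ C₁ / M) →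
        |g.eval t| ≤ Real.exp (Real.log (Psi P (C₁ / M) z) + c₁) ∧
        m - D * Real.log M ≤ Real.log (Psi P (C₁ / M) z) + c₁ ∧
        Real.log (Psi P (C₁ / M) z) ≤ m + c₁ := by
    intro P a b
    by_cases h : P ≠ 0 ∧ P.totalDegree ≤ D ∧ ∀ i, |b i| ≤ C₁
    · obtain ⟨m, g, hg⟩ := hlin M P a b hM h.1 h.2.1 h.2.2
      exact ⟨m, g, fun _ _ _ => hg⟩
    · exact ⟨0, 0, fun h1 h2 h3 => absurd ⟨h1, h2, h3⟩ h⟩
  choose mm gg hmg using hex
  have key := hbup V Ξ Λ Δ Δ Γ Unit Unit r M N (fun i v => y i (pr v)) (fun i v => l i (pr v))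
    (fun v => c (y 0 (pr v))) (fun v => c (y N (pr v))) β (fun _ => ())
    (fun ξ => T ξ % M) (fun b ξ => Real.log (Psi (P b) (C₁ / M) (rp M pos ξ)))
    (fun b ll => mm (P b) (A ll) (B ll)) (fun b ll _ => gg (P b) (A ll) (B ll)) c₁ e₁
    hr
    (fun i _ w => Nat.mod_lt _ hM0)
    (by
      intro i hi v hv
      have hw := hsup v hv
      have h1 := hP v hv
      have h2 : ∀ k, |B (l i (pr v)) k| ≤ C₁ := by
        intro k
        rw [← hch.line _ hw i hi]
        exact hL.B_le _ k
      have h3 := hmg (P (β v)) (A (l i (pr v))) (B (l i (pr v))) h1.1 h1.2 h2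
      refine ⟨(), h3.1, h3.2.1, ?_⟩
      intro v' hv' hb hl
      have hw' := hsup v' hv'
      have h4 := near_line hL (o' i (pr v'))
      rw [hch.stop _ hw' i hi, hch.line' _ hw' i hi] at h4
      have h5 : T (y (i + 1) (pr v')) % M = T (y (i + 1) (pr v')) := by
        refine Nat.mod_eq_of_lt ?_
        rw [← hch.stop _ hw' i hi]
        exact hL.T_lt _
      rw [h5]
      rw [← hb, ← hl]
      have h6 := hmg (P (β v')) (A (l i (pr v'))) (B (l i (pr v'))) (hP v' hv').1 (hP v' hv').2
        (by rw [hl]; exact h2)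
      exact (h6.2.2 _ h4.1 _ h4.2).1)
    (by
      intro i hi v hv
      have hw := hsup v hv
      have h1 := hP v hv
      have h2 : ∀ k, |B (l i (pr v)) k| ≤ C₁ := by
        intro k
        rw [← hch.line _ hw i hi]
        exact hL.B_le _ k
      have h3 := hmg (P (β v)) (A (l i (pr v))) (B (l i (pr v))) h1.1 h1.2 h2
      have h4 := near_line hL (o' i (pr v))
      rw [hch.stop _ hw i hi, hch.line' _ hw i hi] at h4
      exact (h3.2.2 _ h4.1 _ h4.2).2.1)
    (by
      intro i hi v hv
      have hw := hsup v hv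
      have h1 := hP v hv
      have h2 : ∀ k, |B (l i (pr v)) k| ≤ C₁ := by
        intro k
        rw [← hch.line _ hw i hi]
        exact hL.B_le _ k
      have h3 := hmg (P (β v)) (A (l i (pr v))) (B (l i (pr v))) h1.1 h1.2 h2
      have h4 := near_line hL (o i (pr v))
      rw [hch.start _ hw i hi, hch.line _ hw i hi] at h4
      exact (h3.2.2 _ h4.1 _ h4.2).2.2)
    (by
      intro i hi
      have h1 : CI r β (fun v => (l i (pr v), T (y (i + 1) (pr v)) % M))
          (fun v => (c (y 0 (pr v)), c (y N (pr v)))) := hci.mono_right hr0 (by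
        intro ω ω' _ _ h
        have := (Prod.ext_iff.mp h).1
        simp only at this ⊢
        rw [this])
      have h2 := (h1.weak hr0).symm hr0
      unfold CI at h2
      have h3 : CH r (fun v => T (y (i + 1) (pr v)) % M)
          (fun v => (l i (pr v), (c (y 0 (pr v)), (c (y N (pr v)), ())))) =
          CH r (fun v => T (y (i + 1) (pr v)) % M)
          (fun v => (l i (pr v), (c (y 0 (pr v)), c (y N (pr v))))) := by
        refine CH_congr hr0 (fun _ _ _ _ h => (Prod.ext_iff.mp h).1)
          (fun _ _ _ _ h => (Prod.ext_iff.mp h).1) ?_ ?_ <;>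
        · intro ω ω' _ _ h
          simp only [Prod.mk.injEq] at h ⊢
          tauto
      rw [h3, ← h2]
      refine CH_mono_cond hr0 ?_
      intro ω ω' _ _ h
      simp only [Prod.mk.injEq] at h ⊢
      tauto)
    (by
      intro i hi
      have h1 : CI q (y 0) (fun w => (y (i + 1) w, y N w)) (l i) := by
        refine CI_of_le hq0 ?_
        rw [← hch.ci2 i hi]
        refine CH_mono_cond hq0 ?_
        intro ω ω' _ _ h
        simp only [Prod.mk.injEq] at h ⊢
        tauto
      have h2 : CI q (y 0) (fun w => (c (y N w), y (i + 1) w)) (l i) := h1.mono_right hq0 (by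
        intro ω ω' _ _ h
        have := (Prod.ext_iff.mp h).1
        simp only [Prod.mk.injEq] at this ⊢
        rw [this.1, this.2]
        exact ⟨rfl, rfl⟩)
      have h3 : CI q (fun w => c (y 0 w)) (y (i + 1)) (fun w => (c (y N w), l i w)) :=
        (h2.weak hq0).mono_left hq0 (by
        intro ω ω' _ _ h
        exact congrArg c (Prod.ext_iff.mp h).1)
      have h4 := (h3.symm hq0).marg hm
      unfold CI at h4
      have h5 : CH r (fun v => y (i + 1) (pr v))
          (fun v => (l i (pr v), (c (y 0 (pr v)), (c (y N (pr v)), ())))) =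
          CH r (fun v => y (i + 1) (pr v))
          (fun v => (c (y 0 (pr v)), (c (y N (pr v)), l i (pr v)))) := by
        refine CH_congr hr0 (fun _ _ _ _ h => (Prod.ext_iff.mp h).1)
          (fun _ _ _ _ h => (Prod.ext_iff.mp h).1) ?_ ?_ <;>
        · intro ω ω' _ _ h
          simp only [Prod.mk.injEq] at h ⊢
          tauto
      rw [h5, h4]
      refine CH_congr hr0 (fun _ _ _ _ h => (Prod.ext_iff.mp h).1)
        (fun _ _ _ _ h => (Prod.ext_iff.mp h).1) ?_ ?_ <;>
      · intro ω ω' _ _ h
        simp only [Prod.mk.injEq] at h ⊢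
        tauto)
    (by
      intro i hi
      have h1 : CI q (y N) (y i) (l i) := hch.ci3 i hi
      have h2 : CI q (fun w => c (y N w)) (y i) (l i) := h1.mono_left hq0 (by
        intro ω ω' _ _ h
        exact congrArg c (Prod.ext_iff.mp h).1)
      have h4 := h2.marg hm
      unfold CI at h4
      have h5 : CH r (fun v => c (y N (pr v))) (fun v => (y i (pr v), (l i (pr v), ()))) =
          CH r (fun v => c (y N (pr v))) (fun v => (y i (pr v), l i (pr v))) := by
        refine CH_congr hr0 (fun _ _ _ _ h => (Prod.ext_iff.mp h).1)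
          (fun _ _ _ _ h => (Prod.ext_iff.mp h).1) ?_ ?_ <;>
        · intro ω ω' _ _ h
          simp only [Prod.mk.injEq] at h ⊢
          tauto
      rw [h5, h4]
      refine CH_congr hr0 (fun _ _ _ _ h => (Prod.ext_iff.mp h).1)
        (fun _ _ _ _ h => (Prod.ext_iff.mp h).1) ?_ ?_
      · intro ω ω' _ _ h
        exact Prod.ext h rfl
      · intro ω ω' _ _ h
        exact (Prod.ext_iff.mp h).1)
    (by
      intro i hi
      have h1 : CI q (y N) (l i) (y (i + 1)) := by
        refine CI_of_le hq0 ?_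
        rw [← hch.ci4 i hi]
        refine CH_mono_cond hq0 ?_
        intro ω ω' _ _ h
        simp only [Prod.mk.injEq] at h ⊢
        tauto
      have h2 : CI q (fun w => c (y N w)) (l i) (y (i + 1)) := h1.mono_left hq0 (by
        intro ω ω' _ _ h
        exact congrArg c (Prod.ext_iff.mp h).1)
      have h4 := h2.marg hm
      unfold CI at h4
      have h5 : CH r (fun v => c (y N (pr v)))
          (fun v => (y (i + 1) (pr v), (l i (pr v), ()))) =
          CH r (fun v => c (y N (pr v))) (fun v => (l i (pr v), y (i + 1) (pr v))) := by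
        refine CH_congr hr0 (fun _ _ _ _ h => (Prod.ext_iff.mp h).1)
          (fun _ _ _ _ h => (Prod.ext_iff.mp h).1) ?_ ?_ <;>
        · intro ω ω' _ _ h
          simp only [Prod.mk.injEq] at h ⊢
          tauto
      rw [h5, h4]
      refine CH_congr hr0 (fun _ _ _ _ h => (Prod.ext_iff.mp h).1)
        (fun _ _ _ _ h => (Prod.ext_iff.mp h).1) ?_ ?_
      · intro ω ω' _ _ h
        exact Prod.ext h rfl
      · intro ω ω' _ _ h
        exact (Prod.ext_iff.mp h).1)
    (by
      intro i hi
      have h0 : CH r (fun v => T (y (i + 1) (pr v)) % M) (fun v => (l i (pr v), ())) =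
          CH q (fun w => T (y (i + 1) w) % M) (fun w => (l i w, ())) :=
        hm.CH (fun w => T (y (i + 1) w) % M) (fun w => (l i w, ()))
      have h1 : CH q (fun w => T (y (i + 1) w) % M) (fun w => (l i w, ())) =
          CH p (fun ω => T (x ω)) lam := by
        rw [← (hch.marg' i hi).CH (fun ω => T (x ω)) lam]
        have e1 : ∀ w, 0 < q w → T (y (i + 1) w) % M = T (x (o' i w)) := by
          intro w hw
          rw [hch.stop w hw i hi]
          refine Nat.mod_eq_of_lt ?_
          rw [← hch.stop w hw i hi]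
          exact hL.T_lt _
        refine CH_congr hq0 ?_ ?_ ?_ ?_
        · intro ω ω' a b h
          have := (Prod.ext_iff.mp h).1
          simp only at this
          rw [e1 ω a, e1 ω' b] at this
          exact this
        · intro ω ω' a b h
          have := (Prod.ext_iff.mp h).1
          simp only at this ⊢
          rw [e1 ω a, e1 ω' b]
          exact this
        · intro ω ω' a b h
          have := (Prod.ext_iff.mp h).1
          simp only at this ⊢
          rw [hch.line' ω a i hi, hch.line' ω' b i hi]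
          exact this
        · intro ω ω' a b h
          have h' : lam (o' i ω) = lam (o' i ω') := h
          rw [hch.line' ω a i hi, hch.line' ω' b i hi] at h'
          exact Prod.ext h' rfl
      rw [h0, h1]
      exact he₁)
  refine key.trans ?_
  have h1 : CH r (fun v => c (y N (pr v))) (fun v => (y 0 (pr v), ())) ≤
      H p (fun ω => c (x ω)) := by
    refine (CH_le_H hr _ _).trans ?_
    have h2 : H q (fun w => c (y N w)) = H p (fun ω => c (x ω)) := by
      have e1 : ∀ b, law q (fun w => c (y N w)) b = law p (fun ω => c (x ω)) b := by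
        intro b
        exact law_comp_eq (hch.cell N le_rfl) c b
      exact H_eq_of_lawS3 e1
    rw [← h2]
    exact (hm.H (fun w => c (y N w))).le
  have h2 : (0 : ℝ) ≤ 2 * D := by positivity
  have h3 := mul_le_mul_of_nonneg_left h1 h2
  have h4 : (0 : ℝ) ≤ N := Nat.cast_nonneg N
  have h5 : (0 : ℝ) ≤ N * c₁ := mul_nonneg h4 hc₁
  have h6 : (0 : ℝ) ≤ N * C := mul_nonneg h4 hC
  have h7 : (0 : ℝ) ≤ 2 * D * (N * c₁) := mul_nonneg h2 h5
  nlinarith

end Pool.KS3
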