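import Pool.Agent.H37.S3.Stmts

/-!
# Conditional independence
-/

set_option autoImplicit false

namespace Pool.KS3

open Finset Real
open Pool.Agent.H49.Ent Pool.Agent.H32.Dense Pool.STK Pool.KAF Pool.KAL

section

variable {Ω S T U V : Type} [Fintype Ω] {p : Ω → ℝ}

/-- `A` and `B` are conditionally independent given `Z`. -/
def CI (p : Ω → ℝ) (A : Ω → S) (B : Ω → T) (Z : Ω → U) : Prop :=
  CH p A (fun ω => (B ω, Z ω)) = CH p A Z

lemma CI_of_le (hp : ∀ ω, 0 ≤ p ω) {A : Ω → S} {B : Ω → T} {Z : Ω → U}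
    (h : CH p A Z ≤ CH p A (fun ω => (B ω, Z ω))) : CI p A B Z :=
  le_antisymm (CH_mono_cond hp (fun _ _ _ _ h => (Prod.ext_iff.mp h).2)) h

lemma CI.symm (hp : ∀ ω, 0 ≤ p ω) {A : Ω → S} {B : Ω → T} {Z : Ω → U} (h : CI p A B Z) :
    CI p B A Z := by
  unfold CI at h ⊢
  have h1 := CH_chain hp A B Z
  have h2 := CH_chain hp B A Z
  have h3 : CH p (fun ω => (A ω, B ω)) Z = CH p (fun ω => (B ω, A ω)) Z := by
    refine CH_congr hp ?_ ?_ (fun _ _ _ _ h => h) (fun _ _ _ _ h => h) <;>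
    · intro ω ω' _ _ h
      simp only [Prod.mk.injEq] at h ⊢
      tauto
  linarith

lemma CI.mono_right (hp : ∀ ω, 0 ≤ p ω) {A : Ω → S} {B : Ω → T} {B' : Ω → V} {Z : Ω → U}
    (h : CI p A B Z) (hB : Det p (fun ω => (B ω, Z ω)) B') : CI p A B' Z := by
  refine CI_of_le hp ?_
  unfold CI at h
  rw [← h]
  refine CH_mono_cond hp ?_
  intro ω ω' a b e
  exact Prod.ext (hB ω ω' a b e) (Prod.ext_iff.mp e).2

lemma CI.mono_left (hp : ∀ ω, 0 ≤ p ω) {A : Ω → S} {A' : Ω → V} {B : Ω → T} {Z : Ω → U}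
    (h : CI p A B Z) (hA : Det p (fun ω => (A ω, Z ω)) A') : CI p A' B Z :=
  ((h.symm hp).mono_right hp hA).symm hp

lemma CI.chain (hp : ∀ ω, 0 ≤ p ω) {A : Ω → S} {B : Ω → T} {C : Ω → V} {Z : Ω → U}
    (h1 : CI p A B Z) (h2 : CI p A C (fun ω => (B ω, Z ω))) :
    CI p A (fun ω => (B ω, C ω)) Z := by
  refine CI_of_le hp ?_
  unfold CI at h1 h2
  rw [← h1, ← h2]
  refine CH_mono_cond hp ?_
  intro ω ω' _ _ h
  simp only [Prod.mk.injEq] at h ⊢
  tauto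

lemma CI.weak (hp : ∀ ω, 0 ≤ p ω) {A : Ω → S} {B : Ω → T} {C : Ω → V} {Z : Ω → U}
    (h : CI p A (fun ω => (B ω, C ω)) Z) : CI p A C (fun ω => (B ω, Z ω)) := by
  refine CI_of_le hp ?_
  have h1 : CH p A (fun ω => (B ω, Z ω)) ≤ CH p A Z :=
    CH_mono_cond hp (fun _ _ _ _ h => (Prod.ext_iff.mp h).2)
  unfold CI at h
  refine h1.trans ?_
  rw [← h]
  refine CH_mono_cond hp ?_
  intro ω ω' _ _ h
  simp only [Prod.mk.injEq] at h ⊢
  tauto

lemma CI.congr (hp : ∀ ω, 0 ≤ p ω) {A : Ω → S} {B : Ω → T} {Z : Ω → U} {Z' : Ω → V}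
    (h : CI p A B Z) (h1 : Det p Z Z') (h2 : Det p Z' Z) : CI p A B Z' := by
  unfold CI at h ⊢
  have e1 : CH p A Z = CH p A Z' :=
    CH_congr hp (fun _ _ _ _ h => (Prod.ext_iff.mp h).1) (fun _ _ _ _ h => (Prod.ext_iff.mp h).1)
      h1 h2
  have e2 : CH p A (fun ω => (B ω, Z ω)) = CH p A (fun ω => (B ω, Z' ω)) :=
    CH_congr hp (fun _ _ _ _ h => (Prod.ext_iff.mp h).1) (fun _ _ _ _ h => (Prod.ext_iff.mp h).1)
      (fun ω ω' a b e => Prod.ext (Prod.ext_iff.mp e).1 (h1 ω ω' a b (Prod.ext_iff.mp e).2))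
      (fun ω ω' a b e => Prod.ext (Prod.ext_iff.mp e).1 (h2 ω ω' a b (Prod.ext_iff.mp e).2))
  rw [← e1, ← e2, h]

/-- Replace all the variables by others which are equal on the support. -/
lemma CI.replace (hp : ∀ ω, 0 ≤ p ω) {A A' : Ω → S} {B B' : Ω → T} {Z Z' : Ω → U}
    (h : CI p A B Z) (hA : ∀ ω, 0 < p ω → A ω = A' ω) (hB : ∀ ω, 0 < p ω → B ω = B' ω)
    (hZ : ∀ ω, 0 < p ω → Z ω = Z' ω) : CI p A' B' Z' := by
  unfold CI at h ⊢
  have e1 : CH p A Z = CH p A' Z' := by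
    refine CH_congr hp ?_ ?_ ?_ ?_
    · intro ω ω' a b e
      rw [← hA ω a, ← hA ω' b]
      exact (Prod.ext_iff.mp e).1
    · intro ω ω' a b e
      rw [hA ω a, hA ω' b]
      exact (Prod.ext_iff.mp e).1
    · intro ω ω' a b e
      rw [← hZ ω a, ← hZ ω' b]
      exact e
    · intro ω ω' a b e
      rw [hZ ω a, hZ ω' b]
      exact e
  have e2 : CH p A (fun ω => (B ω, Z ω)) = CH p A' (fun ω => (B' ω, Z' ω)) := by
    refine CH_congr hp ?_ ?_ ?_ ?_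
    · intro ω ω' a b e
      rw [← hA ω a, ← hA ω' b]
      exact (Prod.ext_iff.mp e).1
    · intro ω ω' a b e
      rw [hA ω a, hA ω' b]
      exact (Prod.ext_iff.mp e).1
    · intro ω ω' a b e
      simp only
      rw [← hZ ω a, ← hZ ω' b, ← hB ω a, ← hB ω' b]
      exact e
    · intro ω ω' a b e
      simp only
      rw [hZ ω a, hZ ω' b, hB ω a, hB ω' b]
      exact e
  rw [← e1, ← e2, h]

end

end Pool.KS3
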