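import Pool.Agent.H37.S3.BACK

/-!
# The assembly: bad cubes are not small
-/

set_option autoImplicit false

namespace Pool.KS3

open Finset Real
open Pool.Agent.H49.Ent Pool.Agent.H32.Dense Pool.STK Pool.KAF Pool.KAL

lemma CH_eq_of_law {Ω Ω' S T U : Type} [Fintype Ω] [Fintype Ω'] {p : Ω → ℝ} {q : Ω' → ℝ}
    {X : Ω → S} {Y : Ω' → S} (h : ∀ s, law q Y s = law p X s) (f : S → T) (g : S → U) :
    CH q (fun w => f (Y w)) (fun w => g (Y w)) = CH p (fun ω => f (X ω)) (fun ω => g (X ω)) := by
  unfold CH
  have h1 : H q (fun w => (f (Y w), g (Y w))) = H p (fun ω => (f (X ω), g (X ω))) :=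
    H_eq_of_lawS3 fun b => law_comp_eq h (fun s => (f s, g s)) b
  have h2 : H q (fun w => g (Y w)) = H p (fun ω => g (X ω)) :=
    H_eq_of_lawS3 fun b => law_comp_eq h g b
  rw [h1, h2]

/-- The deficit of the base coordinates inside the cube, given a variable with small mutual
information. -/
lemma fill_def {W Ξ V Δ : Type} [Fintype W] {n : ℕ} {q : W → ℝ} (hq : IsLaw q) (X : W → Ξ)
    (pos : Ξ → Option (Fin n) → ℕ) (r : ℕ) (Z : W → V) (Z' : W → Δ) (hZ : Det q Z Z') :
    CH q (fun w => bas pos (X w)) (fun w => cel r pos (X w)) - (H q X - CH q X Z) ≤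
      CH q (fun w i => pos (X w) (some i) % r) (fun w => (Z' w, cel r pos (X w))) := by
  have hq0 := hq.nonneg
  refine (mi_le hq X (bas pos) (cel r pos) Z).trans ?_
  have h1 : CH q (fun w => bas pos (X w)) (fun w => (cel r pos (X w), Z w)) ≤
      CH q (fun w => bas pos (X w)) (fun w => (Z' w, cel r pos (X w))) := by
    refine CH_mono_cond hq0 ?_
    intro ω ω' a b h
    simp only [Prod.mk.injEq] at h ⊢
    exact ⟨hZ ω ω' a b h.2, h.1⟩
  refine h1.trans (le_of_eq ?_)
  refine CH_congr hq0 ?_ ?_ (fun _ _ _ _ h => h) (fun _ _ _ _ h => h)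
  · intro ω ω' _ _ h
    have h2 := (Prod.ext_iff.mp h).1
    funext i
    have h3 := congrFun h2 i
    simp only [bas] at h3
    simp only [h3]
  · intro ω ω' _ _ h
    have h2 := (Prod.ext_iff.mp h).1
    have h3 := (Prod.ext_iff.mp (Prod.ext_iff.mp h).2).2
    funext i
    have h4 := congrFun h2 i
    have h5 := congrFun h3 (some i)
    simp only [cel] at h4 h5
    simp only [bas]
    rw [← Nat.div_add_mod (pos (X ω) (some i)) r, ← Nat.div_add_mod (pos (X ω') (some i)) r,
      h4, h5]

/-- The base coordinates of a point in its cube. -/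
lemma mem_cube_crn {n : ℕ} {Ξ : Type} (pos : Ξ → Option (Fin n) → ℕ) (K r M : ℕ) (hK : 1 ≤ K)
    (hr : 1 ≤ r) (hM : M = K * r) (ξ : Ξ) :
    (fun i => rp M pos ξ (some i)) ∈ cube (crn M r (cel r pos ξ)) (1 / (K : ℝ)) := by
  intro i
  have hM0 : (0 : ℝ) < M := by
    have : 0 < M := by rw [hM]; positivity
    exact_mod_cast this
  have hK0 : (0 : ℝ) < K := by exact_mod_cast hK
  have h1 : pos ξ (some i) / r * r ≤ pos ξ (some i) := Nat.div_mul_le_self _ _
  have h2 : pos ξ (some i) ≤ pos ξ (some i) / r * r + r := by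
    have := Nat.div_add_mod (pos ξ (some i)) r
    have h3 := Nat.mod_lt (pos ξ (some i)) (by omega : 0 < r)
    have h4 : r * (pos ξ (some i) / r) = pos ξ (some i) / r * r := Nat.mul_comm _ _
    omega
  have h1' : (((pos ξ (some i) / r * r : ℕ)) : ℝ) ≤ pos ξ (some i) := by exact_mod_cast h1
  have h2' : (pos ξ (some i) : ℝ) ≤ ((pos ξ (some i) / r * r : ℕ) : ℝ) + r := by
    exact_mod_cast h2
  simp only [rp, crn, cel]
  have hMr : (M : ℝ) = K * r := by rw [hM]; push_cast; ring
  constructor
  · exact (div_le_div_iff_of_pos_right hM0).mpr h1'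
  · have e1 : (1 : ℝ) / K = r / M := by
      rw [hMr]
      have : (r : ℝ) ≠ 0 := by
        have : 0 < r := hr
        positivity
      field_simp
    rw [e1, ← add_div]
    exact (div_le_div_iff_of_pos_right hM0).mpr h2'

/-- The corner and the remainder. -/
lemma rp_eq {n : ℕ} {Ξ : Type} (pos : Ξ → Option (Fin n) → ℕ) (r M : ℕ) (ξ : Ξ) (i : Fin n) :
    rp M pos ξ (some i) = crn M r (cel r pos ξ) i + ((pos ξ (some i) % r : ℕ) : ℝ) / M := by
  simp only [rp, crn, cel]
  rw [← add_div]
  congr 1
  have := Nat.div_add_mod (pos ξ (some i)) r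
  have h2 : pos ξ (some i) = pos ξ (some i) / r * r + pos ξ (some i) % r := by
    rw [mul_comm]; exact this.symm
  exact_mod_cast h2

/-- The small cube inside the cube. -/
lemma small_in {n : ℕ} {Ξ : Type} (pos : Ξ → Option (Fin n) → ℕ) (K R M : ℕ) (hK : 1 ≤ K)
    (hR : 1 ≤ R) (hM : M = K * (K * R)) (ξ : Ξ) :
    (fun i => rp M pos ξ (some i)) ∈
      cube (fun i => ((sce R pos ξ i * R : ℕ) : ℝ) / M) (1 / (K : ℝ) ^ 2) ∧
    ∀ i, crn M (K * R) (cel (K * R) pos ξ) i ≤ ((sce R pos ξ i * R : ℕ) : ℝ) / M ∧
      ((sce R pos ξ i * R : ℕ) : ℝ) / M + 1 / (K : ℝ) ^ 2 ≤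
        crn M (K * R) (cel (K * R) pos ξ) i + 1 / K := by
  have hM0 : (0 : ℝ) < M := by
    have : 0 < M := by rw [hM]; positivity
    exact_mod_cast this
  have hK0 : (0 : ℝ) < K := by exact_mod_cast hK
  have hR0 : (0 : ℝ) < R := by exact_mod_cast hR
  have hMr : (M : ℝ) = K * (K * R) := by rw [hM]; push_cast; ring
  have e1 : (1 : ℝ) / K ^ 2 = R / M := by
    rw [hMr]
    field_simp
  have e2 : (1 : ℝ) / K = (K * R : ℝ) / M := by
    rw [hMr]
    field_simp
  constructor
  · intro i
    have h1 : pos ξ (some i) / R * R ≤ pos ξ (some i) := Nat.div_mul_le_self _ _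
    have h2 : pos ξ (some i) ≤ pos ξ (some i) / R * R + R := by
      have := Nat.div_add_mod (pos ξ (some i)) R
      have h3 := Nat.mod_lt (pos ξ (some i)) (by omega : 0 < R)
      have h4 : R * (pos ξ (some i) / R) = pos ξ (some i) / R * R := Nat.mul_comm _ _
      omega
    have h1' : (((pos ξ (some i) / R * R : ℕ)) : ℝ) ≤ pos ξ (some i) := by exact_mod_cast h1
    have h2' : (pos ξ (some i) : ℝ) ≤ ((pos ξ (some i) / R * R : ℕ) : ℝ) + R := by
      exact_mod_cast h2
    simp only [rp, sce]
    refine ⟨(div_le_div_iff_of_pos_right hM0).mpr h1', ?_⟩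
    rw [e1, ← add_div]
    exact (div_le_div_iff_of_pos_right hM0).mpr h2'
  · intro i
    simp only [crn, cel, sce]
    set a := pos ξ (some i) / R with ha
    have h0 : pos ξ (some i) / (K * R) = a / K := by
      rw [ha, Nat.div_div_eq_div_mul, mul_comm]
    rw [h0]
    have h1 : a / K * (K * R) ≤ a * R := by
      have := Nat.div_mul_le_self a K
      calc a / K * (K * R) = (a / K * K) * R := by ring
        _ ≤ a * R := Nat.mul_le_mul_right _ this
    have h2 : a * R + R ≤ a / K * (K * R) + K * R := by
      have h3 := Nat.div_add_mod a K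
      have h4 := Nat.mod_lt a (by omega : 0 < K)
      have h5 : a + 1 ≤ a / K * K + K := by
        have h6 : K * (a / K) = a / K * K := Nat.mul_comm _ _
        omega
      calc a * R + R = (a + 1) * R := by ring
        _ ≤ (a / K * K + K) * R := Nat.mul_le_mul_right _ h5
        _ = a / K * (K * R) + K * R := by ring
    have h1' : ((a / K * (K * R) : ℕ) : ℝ) ≤ ((a * R : ℕ) : ℝ) := by exact_mod_cast h1
    have h2' : ((a * R : ℕ) : ℝ) + R ≤ ((a / K * (K * R) : ℕ) : ℝ) + K * R := by
      exact_mod_cast h2
    refine ⟨(div_le_div_iff_of_pos_right hM0).mpr h1', ?_⟩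
    rw [e1, e2, ← add_div, ← add_div]
    exact (div_le_div_iff_of_pos_right hM0).mpr h2'

lemma Leaf.mono {n M : ℕ} {C₀ C₁ : ℝ} {Ω Λ Ξ : Type} [Fintype Ω] {p : Ω → ℝ} {lam : Ω → Λ}
    {x : Ω → Ξ} {T : Ξ → ℕ} {pos : Ξ → Option (Fin n) → ℕ} {A B : Λ → Option (Fin n) → ℝ}
    (hL : Leaf n M C₀ p lam x T pos A B) (h : C₀ ≤ C₁) : Leaf n M C₁ p lam x T pos A B :=
  { isLaw := hL.isLaw
    T_lt := hL.T_lt
    pos_lt := hL.pos_lt
    near := fun ω i => (hL.near ω i).trans (div_le_div_of_nonneg_right h (Nat.cast_nonneg _))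
    A_le := fun ω i => (hL.A_le ω i).trans h
    B_le := fun ω i => (hL.B_le ω i).trans h }

/-- Entropy of the small cube given the cube. -/
lemma sce_le {n : ℕ} {Ω Ξ : Type} [Fintype Ω] {p : Ω → ℝ} (hp : IsLaw p) (X : Ω → Ξ)
    (pos : Ξ → Option (Fin n) → ℕ) (K R : ℕ) (hK : 1 ≤ K) :
    CH p (fun ω => sce R pos (X ω)) (fun ω => cel (K * R) pos (X ω)) ≤ n * Real.log K := by
  classical
  have h1 := CH_le_card hp.nonneg hp.sum_one (fun ω => sce R pos (X ω))
    (fun ω => cel (K * R) pos (X ω))
    (fun b => Fintype.piFinset (fun i : Fin n =>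
      Finset.Ico (b (some i) * K) ((b (some i) + 1) * K))) (by
    intro ω _
    rw [Fintype.mem_piFinset]
    intro i
    simp only [sce, cel, Finset.mem_Ico]
    set a := pos (X ω) (some i) / R with ha
    have h0 : pos (X ω) (some i) / (K * R) = a / K := by
      rw [ha, Nat.div_div_eq_div_mul, mul_comm]
    rw [h0]
    have h3 := Nat.div_add_mod a K
    have h4 := Nat.mod_lt a (by omega : 0 < K)
    constructor
    · exact Nat.div_mul_le_self a K
    · have h6 : K * (a / K) = a / K * K := Nat.mul_comm _ _
      have h7 : (a / K + 1) * K = a / K * K + K := by ring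
      omega)
  refine h1.trans ?_
  have h2 : ∀ ω, Real.log ((Fintype.piFinset (fun i : Fin n =>
      Finset.Ico ((cel (K * R) pos (X ω)) (some i) * K)
        (((cel (K * R) pos (X ω)) (some i) + 1) * K))).card : ℝ) = n * Real.log K := by
    intro ω
    rw [Fintype.card_piFinset]
    have : ∀ i : Fin n, (Finset.Ico ((cel (K * R) pos (X ω)) (some i) * K)
        (((cel (K * R) pos (X ω)) (some i) + 1) * K)).card = K := by
      intro i
      rw [Nat.card_Ico]
      have : ((cel (K * R) pos (X ω)) (some i) + 1) * K =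
        (cel (K * R) pos (X ω)) (some i) * K + K := by ring
      rw [this]
      omega
    simp only [this, Finset.prod_const, Finset.card_univ, Fintype.card_fin]
    push_cast
    rw [Real.log_pow]
  simp only [h2]
  rw [Ex_const hp.sum_one]

theorem cor_thm (hSML : SMLStmt) (hFIL : FILStmt) (hLIN : LINStmt) (hBUD : BUDStmt)
    (hBUP : BUPStmt) : CORStmt := by
  classical
  intro n D j k₀ C₀ hcho hj hC₀
  set C₁ : ℝ := (n + 2) * C₀ with hC₁def
  have hn0 : (0 : ℝ) ≤ n := Nat.cast_nonneg n
  have hC01 : C₀ ≤ C₁ := by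
    rw [hC₁def]
    have h1 : 0 ≤ (n : ℝ) * C₀ := mul_nonneg hn0 (by linarith only [hC₀])
    linarith only [hC₀, h1]
  have hC₁ : 1 ≤ C₁ := hC₀.trans hC01
  obtain ⟨Cs, hCs, hsml⟩ := hSML n D j k₀ C₁ hcho hC₁
  obtain ⟨κ, Cf, hCf, hfil⟩ := hFIL n D k₀ C₁ hC₁
  obtain ⟨Cg, hCg, hgo⟩ := go hLIN hBUD n D C₁ hC₁
  obtain ⟨Cb, hCb, hback⟩ := back hLIN hBUP n D C₁ hC₁
  have hlCs : 0 ≤ Real.log Cs := Real.log_nonneg hCs
  refine ⟨Real.log Cs + 4 * D + 2 * κ + 2 * κ * Cf + 4 * D + 2 * D * (Cg + Cb) + Cg + Cb,
    by positivity, ?_⟩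
  intro Ω Λ Ξ W _ _ p lam x T pos A B G K R M N q o o' l y e₁ e₂ e₃ e₄ hM hK hKM hL hchn hreg
    hgr hbad he₁0 he₂0 he₃0 he₄0 he₁ he₂ he₃ he₄
  -- sizes
  have hM1 : 1 ≤ M := le_trans (Nat.one_le_pow _ _ hK) hKM
  have hR : 1 ≤ R := by
    by_contra hcon
    have : R = 0 := by omega
    subst this
    simp at hM
    omega
  have hr1 : 1 ≤ K * R := Nat.mul_pos hK hR
  have hK0 : (0 : ℝ) < K := by exact_mod_cast hK
  have hK1 : (1 : ℝ) ≤ K := by exact_mod_cast hK
  have hM0 : (0 : ℝ) < M := by exact_mod_cast hM1
  exact by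
   have hMr : (M : ℝ) = (K : ℝ) * ((K * R : ℕ) : ℝ) := by
     rw [hM]
     push_cast
     ring
   have hp := hL.isLaw
   have hp0 := hp.nonneg
   have hq := hchn.isLaw
   have hq0 := hq.nonneg
   have hL' := hL.mono hC01
   set cl : Ξ → Option (Fin n) → ℕ := cel (K * R) pos with hcl
   set bb : Ξ → (Option (Fin n) → ℕ) × (Fin n → ℕ) := fun ξ => (cl ξ, sce R pos ξ) with hbb
   -- regularity with the larger constant
   have hreg' : ∀ ω, 0 < p ω → RegG (G (cl (x ω))) (crn M (K * R) (cl (x ω))) (1 / K) k₀ C₁ :=
     fun ω hω => ⟨(hreg ω hω).deg, fun z hz i => ((hreg ω hω).slope z hz i).trans hC01⟩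
   have hgr' : ∀ ω, 0 < p ω → |rp M pos (x ω) none - MvPolynomial.eval
       (fun i => rp M pos (x ω) (some i)) (G (cl (x ω)))| ≤ C₁ / M :=
     fun ω hω => (hgr ω hω).trans (div_le_div_of_nonneg_right hC01 hM0.le)
   -- the polynomials
   have hexP : ∀ β : (Option (Fin n) → ℕ) × (Fin n → ℕ),
       ∃ P : MvPolynomial (Option (Fin n)) ℝ, (∃ ω, 0 < p ω ∧ bb (x ω) = β) →
         P ≠ 0 ∧ P.totalDegree ≤ D ∧ cs (crn M (K * R) β.1) (1 / K) (gr (G β.1) P) = 1 ∧
         ∀ z : Option (Fin n) → ℝ,
           (fun i => z (some i)) ∈ cube (fun i => ((β.2 i * R : ℕ) : ℝ) / M) (1 / (K : ℝ) ^ 2) →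
           |z none - MvPolynomial.eval (fun i => z (some i)) (G β.1)| ≤ C₁ / M →
           Psi P (C₁ / M) z ≤ Cs / K ^ (j + 1) := by
     intro β
     by_cases h : ∃ ω, 0 < p ω ∧ bb (x ω) = β
     · obtain ⟨ω, hω, hβ⟩ := h
       subst hβ
       obtain ⟨P, h1, h2, h3, h4⟩ := hsml K M (G (cl (x ω))) (crn M (K * R) (cl (x ω)))
         (fun i => ((sce R pos (x ω) i * R : ℕ) : ℝ) / M) hK1 (by exact_mod_cast hKM)
         (hreg' ω hω) (hbad ω hω) (small_in pos K R M hK hR hM (x ω)).2
       exact ⟨P, fun _ => ⟨h1, h2, h3, h4⟩⟩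
     · exact ⟨0, fun h' => absurd h' h⟩
   choose P hP using hexP
   exact by
    have hsup : ∀ i ≤ N, ∀ w, 0 < q w → ∃ ω, 0 < p ω ∧ x ω = y i w :=
      fun i hi w hw => supp_of_law (hchn.cell i hi) hq0 hw
    have hPw : ∀ w, 0 < q w → P (bb (y 0 w)) ≠ 0 ∧ (P (bb (y 0 w))).totalDegree ≤ D := by
      intro w hw
      obtain ⟨ω, hω, hx⟩ := hsup 0 (Nat.zero_le _) w hw
      have := hP (bb (y 0 w)) ⟨ω, hω, by rw [hx]⟩
      exact ⟨this.1, this.2.1⟩
    -- forward
    have E1 := hgo Ω Λ Ξ W _ p lam x T pos A B M N q o o' l y bb P e₁ hM1 hL' hchn hPw he₁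
    -- start
    have E0 : Ex q (fun w => Real.log (Psi (P (bb (y 0 w))) (C₁ / M) (rp M pos (y 0 w)))) ≤
        Real.log Cs - (j + 1) * Real.log K := by
      have h1 : Ex q (fun w => Real.log (Psi (P (bb (y 0 w))) (C₁ / M) (rp M pos (y 0 w)))) ≤
          Ex q (fun _ => Real.log Cs - (j + 1) * Real.log K) := by
        refine Ex_mono hq0 fun w hw => ?_
        obtain ⟨ω, hω, hx⟩ := hsup 0 (Nat.zero_le _) w hw
        have h2 := hP (bb (y 0 w)) ⟨ω, hω, by rw [hx]⟩
        have h3 := h2.2.2.2 (rp M pos (y 0 w)) (small_in pos K R M hK hR hM (y 0 w)).1 (by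
          have := hgr' ω hω
          rw [hx] at this
          exact this)
        have h4 := Psi_pos (P (bb (y 0 w))) h2.1 (C₁ / M) (by positivity) (rp M pos (y 0 w))
        have h5 := Real.log_le_log h4 h3
        rw [Real.log_div (by positivity) (by positivity), Real.log_pow] at h5
        push_cast at h5
        linarith only [h5]
      rwa [Ex_const hq.sum_one] at h1
    -- the deficits
    have hlawN := hchn.cell N le_rfl
    have hlaw0 := hchn.cell 0 (Nat.zero_le _)
    exact by
     have hHN : H q (y N) = H p x := H_eq_of_lawS3 hlawN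
     have hH0 : H q (y 0) = H p x := H_eq_of_lawS3 hlaw0
     have defN : n * Real.log ((K * R : ℕ) : ℝ) - e₂ - e₄ ≤
         CH q (fun w i => pos (y N w) (some i) % (K * R))
           (fun w => (bb (y 0 w), cel (K * R) pos (y N w))) := by
       have h1 := fill_def hq (y N) pos (K * R) (y 0) (fun w => bb (y 0 w))
         (fun _ _ _ _ h => congrArg bb h)
       have h2 : CH q (fun w => bas pos (y N w)) (fun w => cel (K * R) pos (y N w)) =
           CH p (fun ω => bas pos (x ω)) (fun ω => cel (K * R) pos (x ω)) :=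
         CH_eq_of_law hlawN (bas pos) (cel (K * R) pos)
       rw [h2, hHN] at h1
       linarith only [he₄, he₂, h1]
     have def0 : n * Real.log ((K * R : ℕ) : ℝ) - e₂ - e₄ ≤
         CH q (fun w i => pos (y 0 w) (some i) % (K * R))
           (fun w => (cl (y N w), cel (K * R) pos (y 0 w))) := by
       have h1 := fill_def hq (y 0) pos (K * R) (y N) (fun w => cl (y N w))
         (fun _ _ _ _ h => congrArg cl h)
       have h2 : CH q (fun w => bas pos (y 0 w)) (fun w => cel (K * R) pos (y 0 w)) =
           CH p (fun ω => bas pos (x ω)) (fun ω => cel (K * R) pos (x ω)) :=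
         CH_eq_of_law hlaw0 (bas pos) (cel (K * R) pos)
       have h3 := mi_symm hq0 (y 0) (y N)
       rw [h2] at h1
       rw [hHN] at h3
       linarith only [he₄, he₂, h1, h3]
     -- filling the cube of the last point
     set F : (Option (Fin n) → ℕ) → Finset Ω := fun b =>
       univ.filter (fun ω => 0 < p ω ∧ cl (x ω) = b) with hF
     set S : ((Option (Fin n) → ℕ) × (Fin n → ℕ)) × (Option (Fin n) → ℕ) → ℝ := fun γ =>
       if h : (F γ.2).Nonempty then (F γ.2).sup' h
         (fun ω => Psi (P γ.1) (C₁ / M) (rp M pos (x ω))) else 1 with hS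
     exact by
      have hSle : ∀ (γ : ((Option (Fin n) → ℕ) × (Fin n → ℕ)) × (Option (Fin n) → ℕ)) (ω : Ω),
          0 < p ω → cl (x ω) = γ.2 → Psi (P γ.1) (C₁ / M) (rp M pos (x ω)) ≤ S γ := by
        intro γ ω hω hc
        have hmem : ω ∈ F γ.2 := by
          simp only [hF, Finset.mem_filter, Finset.mem_univ, true_and]
          exact ⟨hω, hc⟩
        have hne : (F γ.2).Nonempty := ⟨ω, hmem⟩
        simp only [hS, dif_pos hne]
        exact Finset.le_sup' (fun ω => Psi (P γ.1) (C₁ / M) (rp M pos (x ω))) hmem
      have hSex : ∀ (γ : ((Option (Fin n) → ℕ) × (Fin n → ℕ)) × (Option (Fin n) → ℕ)) (ω : Ω),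
          0 < p ω → cl (x ω) = γ.2 → ∃ ω', 0 < p ω' ∧ cl (x ω') = γ.2 ∧
            S γ = Psi (P γ.1) (C₁ / M) (rp M pos (x ω')) := by
        intro γ ω hω hc
        have hmem : ω ∈ F γ.2 := by
          simp only [hF, Finset.mem_filter, Finset.mem_univ, true_and]
          exact ⟨hω, hc⟩
        have hne : (F γ.2).Nonempty := ⟨ω, hmem⟩
        obtain ⟨ω', hω', he⟩ := Finset.exists_mem_eq_sup' hne
          (fun ω => Psi (P γ.1) (C₁ / M) (rp M pos (x ω)))
        simp only [hF, Finset.mem_filter, Finset.mem_univ, true_and] at hω'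
        refine ⟨ω', hω'.1, hω'.2, ?_⟩
        simp only [hS, dif_pos hne]
        exact he
      have hC1M : C₁ / M = C₁ / ((K : ℝ) * ((K * R : ℕ) : ℝ)) := by rw [hMr]
      have hcub : ∀ ξ : Ξ, (fun i => rp M pos ξ (some i)) ∈
          cube (crn M (K * R) (cl ξ)) (1 / (K : ℝ)) :=
        fun ξ => mem_cube_crn pos K (K * R) M hK hr1 hM ξ
      have hrp01 : ∀ ω, 0 ≤ rp M pos (x ω) none ∧ rp M pos (x ω) none ≤ 1 := by
        intro ω
        have h1 := hL.pos_lt ω none
        simp only [rp]
        refine ⟨by positivity, ?_⟩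
        rw [div_le_one hM0]
        exact_mod_cast h1.le
      exact by
       have F1 := hfil W _ q (K * R) K (fun w => (bb (y 0 w), cl (y N w)))
         (fun w i => pos (y N w) (some i) % (K * R)) (fun w => rp M pos (y N w))
         (fun γ => crn M (K * R) γ.2) (fun γ => G γ.2) (fun γ => P γ.1) S hq hK
         (Nat.le_mul_of_pos_right K hR)
         (fun w _ i => Nat.mod_lt _ hr1)
         (fun w hw => hPw w hw)
         (by
           intro w hw
           obtain ⟨ω, hω, hx⟩ := hsup N le_rfl w hw
           have := hreg' ω hω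
           rw [hx] at this
           exact this)
         (by
           intro w hw i
           rw [← hMr]
           exact rp_eq pos (K * R) M (y N w) i)
         (by
           intro w hw
           obtain ⟨ω, hω, hx⟩ := hsup N le_rfl w hw
           have := hgr' ω hω
           rw [hx, hC1M] at this
           exact this)
         (by
           intro w hw
           obtain ⟨ω, hω, hx⟩ := hsup N le_rfl w hw
           obtain ⟨ω', hω', hc', hS'⟩ := hSex (bb (y 0 w), cl (y N w)) ω hω (by rw [hx])
           refine ⟨?_, rp M pos (x ω'), ?_, ?_, ?_, ?_⟩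
           · rw [hS']
             exact Psi_pos _ (hPw w hw).1 _ (by positivity) _
           · have := hcub (x ω')
             rw [hc'] at this
             exact this
           · have h1 := hrp01 ω'
             have h2 := hrp01 ω
             rw [hx] at h2
             rw [abs_le]
             constructor <;> linarith only [hC₀, hC01, h1, h2]
           · have := hgr' ω' hω'
             rw [hc', hC1M] at this
             exact this
           · rw [hS', hC1M])
       -- the second chain
       exact by
        set cc : W → (Option (Fin n) → ℕ) × (Option (Fin n) → ℕ) :=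
          fun w => (cl (y 0 w), cl (y N w)) with hcc
        set r : W × W → ℝ := dbl q cc with hr
        have hr0 : ∀ v, 0 ≤ r v := dbl_nonneg (b := cc) hq0
        have m1 : Marg r q (fun v => v.1) := dbl_fst (b := cc) hq0
        have m2 : Marg r q (fun v => v.2) := dbl_snd (b := cc) hq0
        have hrl : IsLaw r := ⟨hr0, by rw [m1.sum]; exact hq.sum_one⟩
        have hceq : ∀ v, 0 < r v → cc v.1 = cc v.2 := fun v hv => dbl_eq hq0 hv
        have hciv : ∀ (S T : Type) (a : W → S) (b : W → T),
            CI r (fun v => a v.1) (fun v => b v.2) (fun v => (cl (y 0 v.2), cl (y N v.2))) := by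
          intro S T a b
          have h1 : CI r (fun v => a v.1) (fun v => b v.2) (fun v => cc v.1) :=
            CI_glue hq0 hq0 (fun _ => rfl) a b
          exact h1.replace hr0 (fun _ _ => rfl) (fun _ _ => rfl) (fun v hv => hceq v hv)
        have E2 := hback Ω Λ Ξ W (W × W) _ _ p lam x T pos A B M N q o o' l y cl r (fun v => v.2)
          (fun v => bb (y 0 v.1)) P e₁ hM1 hL' hchn hrl m2
          (hciv _ _ (fun w => bb (y 0 w)) (fun w => w))
          (fun v hv => hPw v.1 (m1.pos hr0 hv)) he₁
        -- the come back starts in the filled cube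
        have E3 : Ex r (fun v => Real.log (Psi (P (bb (y 0 v.1))) (C₁ / M) (rp M pos (y N v.2)))) ≤
            Ex q (fun w => Real.log (S (bb (y 0 w), cl (y N w)))) := by
          have h1 : Ex r (fun v => Real.log (Psi (P (bb (y 0 v.1))) (C₁ / M)
              (rp M pos (y N v.2)))) ≤
              Ex r (fun v => Real.log (S (bb (y 0 v.1), cl (y N v.1)))) := by
            refine Ex_mono hr0 fun v hv => ?_
            have hv1 := m1.pos hr0 hv
            have hv2 := m2.pos hr0 hv
            obtain ⟨ω, hω, hx⟩ := hsup N le_rfl v.2 hv2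
            have h2 : cl (y N v.1) = cl (y N v.2) := (Prod.ext_iff.mp (hceq v hv)).2
            have h3 := hSle (bb (y 0 v.1), cl (y N v.1)) ω hω (by rw [hx]; exact h2.symm)
            rw [hx] at h3
            exact Real.log_le_log (Psi_pos _ (hPw v.1 hv1).1 _ (by positivity) _) h3
          refine h1.trans (le_of_eq ?_)
          exact m1.ex (fun w => Real.log (S (bb (y 0 w), cl (y N w))))
        -- filling the cube of the first point
        exact by
         have F2 := hfil (W × W) _ r (K * R) K (fun v => bb (y 0 v.1))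
           (fun v i => pos (y 0 v.2) (some i) % (K * R)) (fun v => rp M pos (y 0 v.2))
           (fun γ => crn M (K * R) γ.1) (fun γ => G γ.1) P (fun _ => 1) hrl hK
           (Nat.le_mul_of_pos_right K hR)
           (fun v _ i => Nat.mod_lt _ hr1)
           (fun v hv => hPw v.1 (m1.pos hr0 hv))
           (by
             intro v hv
             obtain ⟨ω, hω, hx⟩ := hsup 0 (Nat.zero_le _) v.1 (m1.pos hr0 hv)
             have := hreg' ω hω
             rw [hx] at this
             exact this)
           (by
             intro v hv i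
             rw [← hMr]
             have h2 : cl (y 0 v.1) = cl (y 0 v.2) := (Prod.ext_iff.mp (hceq v hv)).1
             simp only [hbb]
             rw [h2]
             exact rp_eq pos (K * R) M (y 0 v.2) i)
           (by
             intro v hv
             obtain ⟨ω, hω, hx⟩ := hsup 0 (Nat.zero_le _) v.2 (m2.pos hr0 hv)
             have h2 : cl (y 0 v.1) = cl (y 0 v.2) := (Prod.ext_iff.mp (hceq v hv)).1
             have := hgr' ω hω
             rw [hx, hC1M, ← h2] at this
             exact this)
           (by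
             intro v hv
             refine ⟨one_pos, ?_⟩
             obtain ⟨ω, hω, hx⟩ := hsup 0 (Nat.zero_le _) v.2 (m2.pos hr0 hv)
             have h2 : cl (y 0 v.1) = cl (y 0 v.2) := (Prod.ext_iff.mp (hceq v hv)).1
             obtain ⟨ω₁, hω₁, hx₁⟩ := hsup 0 (Nat.zero_le _) v.1 (m1.pos hr0 hv)
             have h3 := hP (bb (y 0 v.1)) ⟨ω₁, hω₁, by rw [hx₁]⟩
             obtain ⟨ys, hys, hys'⟩ := cs_attained (crn M (K * R) (bb (y 0 v.1)).1) (1 / (K : ℝ))
               (by positivity) (gr (G (bb (y 0 v.1)).1) (P (bb (y 0 v.1))))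
             rw [h3.2.2.1] at hys'
             have hg := hreg ω hω
             rw [hx] at hg
             have hg2 : ∀ z ∈ cube (crn M (K * R) (cl (y 0 v.1))) (1 / (K : ℝ)), ∀ i,
                 |MvPolynomial.eval z (MvPolynomial.pderiv i (G (cl (y 0 v.1))))| ≤ C₀ := by
               rw [h2]
               exact hg.slope
             refine ⟨gpt (G (bb (y 0 v.1)).1) ys, hys, ?_, ?_, ?_⟩
             · have h4 := mean_value (G (cl (y 0 v.1))) (crn M (K * R) (cl (y 0 v.1))) (1 / (K : ℝ)) C₀
                 (by linarith only [hC₀]) hg2 (fun i => rp M pos (y 0 v.2) (some i)) ys (by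
                   rw [h2]
                   exact hcub (y 0 v.2)) hys
               have h5 := hgr ω hω
               rw [hx] at h5
               have h5' : |rp M pos (y 0 v.2) none - MvPolynomial.eval
                   (fun i => rp M pos (y 0 v.2) (some i)) (G (cl (y 0 v.1)))| ≤ C₀ / M := by
                 rw [h2]
                 exact h5
               have h6 : C₀ / M ≤ C₀ := by
                 rw [div_le_iff₀ hM0]
                 have : (1 : ℝ) ≤ M := by exact_mod_cast hM1
                 exact le_mul_of_one_le_right (by linarith only [hC₀]) this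
               have h7 : (n : ℝ) * C₀ * (1 / K) ≤ n * C₀ := by
                 have : (1 : ℝ) / K ≤ 1 := by
                   rw [div_le_one hK0]
                   exact hK1
                 have h8 : 0 ≤ (n : ℝ) * C₀ := by positivity
                 exact mul_le_of_le_one_right h8 this
               change |MvPolynomial.eval ys (G (cl (y 0 v.1))) - rp M pos (y 0 v.2) none| ≤ C₁
               have e1 : MvPolynomial.eval ys (G (cl (y 0 v.1))) - rp M pos (y 0 v.2) none =
                   (MvPolynomial.eval ys (G (cl (y 0 v.1))) - MvPolynomial.eval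
                     (fun i => rp M pos (y 0 v.2) (some i)) (G (cl (y 0 v.1)))) -
                   (rp M pos (y 0 v.2) none - MvPolynomial.eval
                     (fun i => rp M pos (y 0 v.2) (some i)) (G (cl (y 0 v.1)))) := by ring
               rw [e1]
               refine (abs_sub _ _).trans ?_
               rw [hC₁def]
               linarith only [hC₀, h4, h5', h6, h7]
             · change |MvPolynomial.eval ys (G (cl (y 0 v.1))) - MvPolynomial.eval ys
                 (G (cl (y 0 v.1)))| ≤ _
               rw [sub_self, abs_zero]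
               positivity
             · rw [eval_gr] at hys'
               rw [← hys']
               exact abs_eval_le_Psi _ _ _)
         exact by
          have def0' : n * Real.log ((K * R : ℕ) : ℝ) - e₂ - e₄ ≤
              CH r (fun v i => pos (y 0 v.2) (some i) % (K * R)) (fun v => bb (y 0 v.1)) := by
            refine def0.trans ?_
            have h1 : CI r (fun v => (fun i => pos (y 0 v.2) (some i) % (K * R) : Fin n → ℕ))
                (fun v => bb (y 0 v.1)) (fun v => (cl (y 0 v.2), cl (y N v.2))) :=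
              (hciv _ _ (fun w => bb (y 0 w))
                (fun w => (fun i => pos (y 0 w) (some i) % (K * R) : Fin n → ℕ))).symm hr0
            unfold CI at h1
            have h2 : CH q (fun w i => pos (y 0 w) (some i) % (K * R))
                (fun w => (cl (y N w), cel (K * R) pos (y 0 w))) =
                CH r (fun v i => pos (y 0 v.2) (some i) % (K * R))
                  (fun v => (cl (y 0 v.2), cl (y N v.2))) := by
              rw [← m2.CH (fun w i => pos (y 0 w) (some i) % (K * R))
                (fun w => (cl (y N w), cel (K * R) pos (y 0 w)))]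
              refine CH_congr hr0 (fun _ _ _ _ h => (Prod.ext_iff.mp h).1)
                (fun _ _ _ _ h => (Prod.ext_iff.mp h).1) ?_ ?_ <;>
              · intro ω ω' _ _ h
                simp only [hcl, Prod.mk.injEq] at h ⊢
                tauto
            rw [h2, ← h1]
            exact CH_mono_cond hr0 (fun _ _ _ _ h => (Prod.ext_iff.mp h).1)
          -- entropies of the cells
          have hlogM : Real.log M = Real.log K + Real.log ((K * R : ℕ) : ℝ) := by
            rw [hMr, Real.log_mul hK0.ne' (by
              have : (0 : ℝ) < ((K * R : ℕ) : ℝ) := by exact_mod_cast hr1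
              exact this.ne')]
          have hHc : H p (fun ω => cl (x ω)) ≤ n * Real.log K + e₂ + e₃ := by
            have h1 : H p (fun ω => (bas pos (x ω), cl (x ω))) ≤ H p x := H_mono hp0 (by
              intro ω ω' _ _ h
              simp only [h])
            have h2 : CH p (fun ω => bas pos (x ω)) (fun ω => cl (x ω)) =
                H p (fun ω => (bas pos (x ω), cl (x ω))) - H p (fun ω => cl (x ω)) := rfl
            have h3 : (n : ℝ) * Real.log M = n * Real.log K + n * Real.log ((K * R : ℕ) : ℝ) := by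
              rw [hlogM]
              ring
            linarith only [he₃, he₂, h1, h2, h3]
          exact by
           have hHb : H p (fun ω => bb (x ω)) ≤ 2 * n * Real.log K + e₂ + e₃ := by
             have h1 := sce_le hp x pos K R hK
             have h2 : H p (fun ω => bb (x ω)) = H p (fun ω => cl (x ω)) +
                 CH p (fun ω => sce R pos (x ω)) (fun ω => cel (K * R) pos (x ω)) := by
               have : H p (fun ω => bb (x ω)) = H p (fun ω => (sce R pos (x ω), cl (x ω))) := by
                 refine H_congr hp0 ?_ ?_ <;>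
                 · intro ω ω' _ _ h
                   simp only [hbb, Prod.mk.injEq] at h ⊢
                   tauto
               rw [this]
               unfold CH
               simp only [hcl]
               ring
             rw [h2]
             linarith only [hHc, h1]
           -- the sum
           have hκ : (0 : ℝ) ≤ κ := Nat.cast_nonneg κ
           have hD : (0 : ℝ) ≤ D := Nat.cast_nonneg D
           have hN : (0 : ℝ) ≤ N := Nat.cast_nonneg N
           have hlK : 0 ≤ Real.log K := Real.log_nonneg hK1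
           have hj' : (6 : ℝ) * n * D ≤ j := by exact_mod_cast hj
           have F1' : Ex q (fun w => Real.log (S (bb (y 0 w), cl (y N w)))) ≤
               Ex q (fun w => Real.log (Psi (P (bb (y 0 w))) (C₁ / M) (rp M pos (y N w)))) +
                 κ * (e₂ + e₄ + Cf) := by
             refine F1.trans ?_
             rw [← hC1M]
             have h1 : (κ : ℝ) * ((n * Real.log ((K * R : ℕ) : ℝ) -
                 CH q (fun w i => pos (y N w) (some i) % (K * R)) (fun w => (bb (y 0 w), cl (y N w)))) +
                 Cf) ≤ κ * (e₂ + e₄ + Cf) := by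
               refine mul_le_mul_of_nonneg_left ?_ hκ
               have := defN
               simp only [← hcl] at this
               linarith only [defN]
             linarith only [h1]
           exact by
            have F2' : 0 ≤ Ex r (fun v => Real.log (Psi (P (bb (y 0 v.1))) (C₁ / M)
                (rp M pos (y 0 v.2)))) + κ * (e₂ + e₄ + Cf) := by
              have h0 : Ex r (fun _ : W × W => Real.log 1) = 0 := by
                rw [Ex_const hrl.sum_one, Real.log_one]
              rw [h0] at F2
              refine F2.trans ?_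
              rw [← hC1M]
              have h1 : (κ : ℝ) * ((n * Real.log ((K * R : ℕ) : ℝ) -
                  CH r (fun v i => pos (y 0 v.2) (some i) % (K * R)) (fun v => bb (y 0 v.1))) +
                  Cf) ≤ κ * (e₂ + e₄ + Cf) := by
                refine mul_le_mul_of_nonneg_left ?_ hκ
                linarith only [def0']
              linarith only [h1]
            have B1 : 2 * (D : ℝ) * (H p (fun ω => bb (x ω)) + N * (e₁ + Cg)) ≤
                2 * D * ((2 * n * Real.log K + e₂ + e₃) + N * (e₁ + Cg)) :=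
              mul_le_mul_of_nonneg_left (by linarith only [hHb]) (by positivity)
            have B2 : 2 * (D : ℝ) * (H p (fun ω => cl (x ω)) + N * (e₁ + Cb)) ≤
                2 * D * ((n * Real.log K + e₂ + e₃) + N * (e₁ + Cb)) :=
              mul_le_mul_of_nonneg_left (by linarith only [hHc]) (by positivity)
            have B3 : (6 : ℝ) * n * D * Real.log K ≤ j * Real.log K := mul_le_mul_of_nonneg_right hj' hlK
            have tot : Real.log K ≤ Real.log Cs + 4 * D * (e₂ + e₃) + 2 * κ * (e₂ + e₄ + Cf) +
                N * (4 * D * e₁ + 2 * D * (Cg + Cb) + (Cg + Cb)) := by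
              linarith only [E1, E0, E2, E3, F1', F2', B1, B2, B3]
            refine tot.trans ?_
            have z1 : 0 ≤ e₂ + e₃ + e₄ + N * (e₁ + 1) + 1 := by positivity
            have z2 : (1 : ℝ) ≤ e₂ + e₃ + e₄ + N * (e₁ + 1) + 1 := by
              have : 0 ≤ e₂ + e₃ + e₄ + N * (e₁ + 1) := by positivity
              linarith only [this]
            have w1 : Real.log Cs * 1 ≤ Real.log Cs * (e₂ + e₃ + e₄ + N * (e₁ + 1) + 1) :=
              mul_le_mul_of_nonneg_left z2 hlCs
            exact by
             have w2 : 4 * (D : ℝ) * (e₂ + e₃) ≤ 4 * D * (e₂ + e₃ + e₄ + N * (e₁ + 1) + 1) :=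
               mul_le_mul_of_nonneg_left (by
                 have : 0 ≤ e₄ + N * (e₁ + 1) + 1 := by positivity
                 linarith only [this]) (by positivity)
             have w3 : 2 * (κ : ℝ) * (e₂ + e₄) ≤ 2 * κ * (e₂ + e₃ + e₄ + N * (e₁ + 1) + 1) :=
               mul_le_mul_of_nonneg_left (by
                 have : 0 ≤ e₃ + N * (e₁ + 1) + 1 := by positivity
                 linarith only [this]) (by positivity)
             have w4 : 2 * (κ : ℝ) * Cf * 1 ≤ 2 * κ * Cf * (e₂ + e₃ + e₄ + N * (e₁ + 1) + 1) :=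
               mul_le_mul_of_nonneg_left z2 (by positivity)
             have w5 : 4 * (D : ℝ) * (N * e₁) ≤ 4 * D * (e₂ + e₃ + e₄ + N * (e₁ + 1) + 1) :=
               mul_le_mul_of_nonneg_left (by
                 have : 0 ≤ e₂ + e₃ + e₄ + N + 1 := by positivity
                 linarith only [he₂0, he₃0, he₄0]) (by positivity)
             have w6 : (2 * (D : ℝ) * (Cg + Cb) + (Cg + Cb)) * N ≤
                 (2 * D * (Cg + Cb) + (Cg + Cb)) * (e₂ + e₃ + e₄ + N * (e₁ + 1) + 1) :=
               mul_le_mul_of_nonneg_left (by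
                 have : 0 ≤ e₂ + e₃ + e₄ + N * e₁ + 1 := by positivity
                 linarith only [this]) (by positivity)
             linarith only [w1, w2, w3, w4, w5, w6]

end Pool.KS3
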