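import Pool.Agent.H10.KAL.SVP
import Pool.Agent.H80.KAL.BUD
import Pool.Agent.H68.KAL.RIK
import Pool.Agent.H99.KAL.JET
import Pool.Agent.H20.KAL.TAY
import Pool.Agent.H7.KSAT.Walk

/-!
# Degree control on a leaf: definitions

Points of a leaf have coordinates in `Option (Fin n)`: the coordinates `some i` are the base
coordinates `Y`, the coordinate `none` is the passive coordinate `N`. On a small cube the leaf is
the graph `N = G (Y)` of a polynomial `G` of bounded (but not uniform) degree.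
-/

set_option autoImplicit false

namespace Pool.KS3

open Finset Real
open Pool.Agent.H49.Ent Pool.Agent.H32.Dense Pool.STK Pool.KAF Pool.KAL

/-- Restriction of a polynomial in `(Y, N)` to the graph `N = G (Y)`. -/
noncomputable def gr {n : ℕ} (G : MvPolynomial (Fin n) ℝ) (Q : MvPolynomial (Option (Fin n)) ℝ) :
    MvPolynomial (Fin n) ℝ :=
  MvPolynomial.bind₁ (fun o : Option (Fin n) => o.elim G MvPolynomial.X) Q

/-- The cube with corner `a` and side `s`. -/
def cube {n : ℕ} (a : Fin n → ℝ) (s : ℝ) : Set (Fin n → ℝ) := {y | ∀ i, a i ≤ y i ∧ y i ≤ a i + s}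

/-- The supremum of `|R|` on the cube with corner `a` and side `s`. -/
noncomputable def cs {n : ℕ} (a : Fin n → ℝ) (s : ℝ) (R : MvPolynomial (Fin n) ℝ) : ℝ :=
  sSup ((fun y => |MvPolynomial.eval y R|) '' cube a s)

/-- The point of the graph over `y`. -/
noncomputable def gpt {n : ℕ} (G : MvPolynomial (Fin n) ℝ) (y : Fin n → ℝ) :
    Option (Fin n) → ℝ := fun o => o.elim (MvPolynomial.eval y G) y

/-- The cube is bad: no polynomial of degree at most `D` is smaller than `lm` times its derivative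
in the passive direction, on the graph over the cube. -/
def Bad {n : ℕ} (G : MvPolynomial (Fin n) ℝ) (a : Fin n → ℝ) (s : ℝ) (D : ℕ) (lm : ℝ) : Prop :=
  ∀ Q : MvPolynomial (Option (Fin n)) ℝ, Q ≠ 0 → Q.totalDegree ≤ D →
    lm * cs a s (gr G (MvPolynomial.pderiv none Q)) < cs a s (gr G Q)

/-- The leaf over the cube with corner `a` and side `s` is the graph of `G`, with slope at most
`C₀`. -/
structure RegG {n : ℕ} (G : MvPolynomial (Fin n) ℝ) (a : Fin n → ℝ) (s : ℝ) (k₀ : ℕ) (C₀ : ℝ) :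
    Prop where
  deg : G.totalDegree ≤ k₀
  slope : ∀ y ∈ cube a s, ∀ i, |MvPolynomial.eval y (MvPolynomial.pderiv i G)| ≤ C₀

/-- A leaf: a law on the incidences `(line, point)`. The point `ξ` has the time `T ξ / M` and the
position `pos ξ / M` in the coordinates of the leaf; the line `l` is `t ↦ A l + t B l`. -/
structure Leaf (n M : ℕ) (C₀ : ℝ) {Ω Λ Ξ : Type} [Fintype Ω] (p : Ω → ℝ) (lam : Ω → Λ)
    (x : Ω → Ξ) (T : Ξ → ℕ) (pos : Ξ → Option (Fin n) → ℕ) (A B : Λ → Option (Fin n) → ℝ) :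
    Prop where
  isLaw : IsLaw p
  T_lt : ∀ ω, T (x ω) < M
  pos_lt : ∀ ω i, pos (x ω) i < M
  near : ∀ ω i, |(pos (x ω) i : ℝ) / M - (A (lam ω) i + (T (x ω) : ℝ) / M * B (lam ω) i)| ≤ C₀ / M
  A_le : ∀ ω i, |A (lam ω) i| ≤ C₀
  B_le : ∀ ω i, |B (lam ω) i| ≤ C₀

/-- The real position. -/
noncomputable def rp {n : ℕ} {Ξ : Type} (M : ℕ) (pos : Ξ → Option (Fin n) → ℕ) (ξ : Ξ) :
    Option (Fin n) → ℝ := fun o => (pos ξ o : ℝ) / M

/-- The cube of a point; the sides have `r` grid points. -/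
def cel {n : ℕ} {Ξ : Type} (r : ℕ) (pos : Ξ → Option (Fin n) → ℕ) (ξ : Ξ) : Option (Fin n) → ℕ :=
  fun o => pos ξ o / r

/-- The base coordinates of the point. -/
def bas {n : ℕ} {Ξ : Type} (pos : Ξ → Option (Fin n) → ℕ) (ξ : Ξ) : Fin n → ℕ :=
  fun i => pos ξ (some i)

/-- The small cube of a point in the base directions; the sides have `r` grid points. -/
def sce {n : ℕ} {Ξ : Type} (r : ℕ) (pos : Ξ → Option (Fin n) → ℕ) (ξ : Ξ) : Fin n → ℕ :=
  fun i => pos ξ (some i) / r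

/-- The corner of a cube with `r` grid points per side. -/
noncomputable def crn {n : ℕ} (M r : ℕ) (b : Option (Fin n) → ℕ) : Fin n → ℝ :=
  fun i => ((b (some i) * r : ℕ) : ℝ) / M

/-- A chain of `N` steps in a leaf: the incidences `o i` and `o' i` are on the line `l i`, the
points of `o i` and `o' i` are `y i` and `y (i + 1)`. -/
structure IsChain {Ω Λ Ξ W : Type} [Fintype Ω] [Fintype W] (p : Ω → ℝ) (lam : Ω → Λ) (x : Ω → Ξ)
    (N : ℕ) (q : W → ℝ) (o o' : ℕ → W → Ω) (l : ℕ → W → Λ) (y : ℕ → W → Ξ) : Prop where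
  isLaw : IsLaw q
  marg : ∀ i < N, Marg q p (o i)
  marg' : ∀ i < N, Marg q p (o' i)
  line : ∀ w, 0 < q w → ∀ i < N, lam (o i w) = l i w
  line' : ∀ w, 0 < q w → ∀ i < N, lam (o' i w) = l i w
  start : ∀ w, 0 < q w → ∀ i < N, x (o i w) = y i w
  stop : ∀ w, 0 < q w → ∀ i < N, x (o' i w) = y (i + 1) w
  cell : ∀ i ≤ N, ∀ z, law q (y i) z = law p x z
  ci1 : ∀ i < N, CH q (y 0) (fun w => (y i w, l i w)) = CH q (y 0) (y i)
  ci2 : ∀ i < N, CH q (y 0) (fun w => (l i w, (y (i + 1) w, y N w))) = CH q (y 0) (l i)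
  ci3 : ∀ i < N, CH q (y N) (fun w => (y i w, l i w)) = CH q (y N) (l i)
  ci4 : ∀ i < N, CH q (y N) (fun w => (y (i + 1) w, l i w)) = CH q (y N) (y (i + 1))

end Pool.KS3
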