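import Pool.Agent.H37.S3.COR
import Pool.Agent.H37.S3.CHN
import Pool.Agent.H37.S3.LIN
import Pool.Agent.H55.KS3.SML
import Pool.Agent.H8.KS3.FIL
import Pool.Agent.H45.KAL.FUL
import Pool.Agent.H33.KAL.RMG
import Pool.Agent.H99.KAL.GVI
import Pool.Agent.H68.KAL.RIM
import Pool.Agent.H32.Dense.Split
import Pool.Agent.H33.KSAT.RES2

/-!
# Degree control on a leaf: the final statement

Theorem 3.4 of `K3_S3.md`: with high probability the cube of a point is not bad.
-/

set_option autoImplicit false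

namespace Pool.KS3

open Finset Real
open Pool.Agent.H49.Ent Pool.Agent.H32.Dense Pool.STK Pool.KAF Pool.KAL

theorem cor : CORStmt :=
  cor_thm sml_thm (fil_thm (rik_thm rmg_thm gvi_thm)) lin_thm (bud_thm (stp_thm (rix_thm (rim_thm rmg_thm gvi_thm))) bue_thm)
    (bup_thm (stp_thm (rix_thm (rim_thm rmg_thm gvi_thm))) bub_thm)

/-- Theorem 3.4: the bad cubes have small probability. -/
def FINStmt : Prop :=
  ∀ (n D j k₀ : ℕ) (C₀ : ℝ), (j + n).choose n < (D + n + 1).choose (n + 1) → 6 * n * D ≤ j →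
    1 ≤ C₀ → ∃ C : ℝ, 0 ≤ C ∧
    ∀ (Ω Λ Ξ : Type) [Fintype Ω] (p : Ω → ℝ) (lam : Ω → Λ) (x : Ω → Ξ)
      (T : Ξ → ℕ) (pos : Ξ → Option (Fin n) → ℕ) (A B : Λ → Option (Fin n) → ℝ)
      (G : (Option (Fin n) → ℕ) → MvPolynomial (Fin n) ℝ) (L u κ γ N : ℕ)
      (δ ε e₁ e₃ : ℝ) (e : Ξ → ℝ),
      (j + 2) * u ≤ L →
      Leaf n (2 ^ L) C₀ p lam x T pos A B →
      (∀ ω, 0 < p ω → RegG (G (cel (2 ^ (L - u)) pos (x ω)))
        (crn (2 ^ L) (2 ^ (L - u)) (cel (2 ^ (L - u)) pos (x ω))) (1 / 2 ^ u) k₀ C₀) →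
      (∀ ω, 0 < p ω → |rp (2 ^ L) pos (x ω) none - MvPolynomial.eval
        (fun i => rp (2 ^ L) pos (x ω) (some i)) (G (cel (2 ^ (L - u)) pos (x ω)))| ≤
          C₀ / 2 ^ L) →
      0 < δ → (∀ a, 0 ≤ e a) → Ex p (fun ω => e (x ω)) ≤ ε → NCF p lam x B δ e →
      n.factorial * C₀ ^ n ≤ δ ^ n * 2 ^ γ → 1 ≤ κ →
      L * Real.log 2 - CH p (fun ω => T (x ω)) lam ≤ e₁ → 0 ≤ e₁ → 0 ≤ e₃ →
      H p x ≤ n * (L * Real.log 2) + e₃ →
      (∑ ω, (open Classical in if Bad (G (cel (2 ^ (L - u)) pos (x ω)))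
        (crn (2 ^ L) (2 ^ (L - u)) (cel (2 ^ (L - u)) pos (x ω)))
        (1 / 2 ^ u) D (2 ^ (u * (j + 1)) / 2 ^ L) then p ω else 0)) * (u * Real.log 2) ≤
        C * ((N + 1) * (e₁ + 1) + e₃ + (1 - 1 / n) ^ N * L + L / κ + γ + κ + 1 + ε * L)

namespace FIN

lemma CH_le_H {Ω S T : Type} [Fintype Ω] {p : Ω → ℝ} (hp : IsLaw p) (X : Ω → S) (Z : Ω → T) :
    CH p X Z ≤ H p X := by
  have := subadd hp.nonneg hp.sum_one (X := X) (Y := Z) (W := fun ω => (X ω, Z ω))
    (fun _ _ _ _ h => h)
  unfold CH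
  linarith only [this]

lemma law_le_one {Ω S : Type} [Fintype Ω] {p : Ω → ℝ} (hp : IsLaw p) (X : Ω → S) (s : S) :
    law p X s ≤ 1 := by
  have := law_le_total hp.nonneg X s
  rwa [hp.sum_one] at this

/-- Time fullness of the conditional laws. -/
lemma time_cond {Ω Λ : Type} [Fintype Ω] {p : Ω → ℝ} (hp : IsLaw p) (lam : Ω → Λ) (T : Ω → ℕ)
    (A : Ω → Bool) {M : ℕ} {e₁ : ℝ} (hT : ∀ ω, T ω < M)
    (h : Real.log M - CH p T lam ≤ e₁) (a : Bool) :
    law p A a * (Real.log M - CH (cond p A a) T lam) ≤ e₁ + Real.log 2 := by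
  classical
  have hp0 := hp.nonneg
  have key : ∀ (q : Ω → ℝ), IsLaw q → CH q T lam ≤ Real.log M := by
    intro q hq
    have b1 := CH_le_card hq.nonneg hq.sum_one T lam (fun _ => Finset.range M)
      (fun ω _ => Finset.mem_range.2 (hT ω))
    rw [Ex_const hq.sum_one, Finset.card_range] at b1
    exact b1
  have h1 : CH p T lam ≤ CH p T (fun ω => (A ω, lam ω)) + CH p A lam := by
    have := CH_le_add hp0 T A lam
    linarith only [this]
  have h2 : CH p A lam ≤ Real.log 2 := by
    have b1 := CH_le_card hp0 hp.sum_one A lam (fun _ => Finset.univ)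
      (fun ω _ => Finset.mem_univ _)
    rw [Ex_const hp.sum_one, Finset.card_univ, Fintype.card_bool] at b1
    exact_mod_cast b1
  have h3 := Pool.KSAT.RES2.CH_sum hp0 T lam A
  have h4 : ∑ b ∈ univ.image A, law p A b = 1 := sum_law_one hp.sum_one A
  have h5 : ∀ b ∈ univ.image A, 0 ≤ law p A b * (Real.log M - CH (cond p A b) T lam) := by
    intro b hb
    rcases (law_nonneg hp0 A b).eq_or_lt with h0 | h0
    · rw [← h0, zero_mul]
    · refine mul_nonneg h0.le (sub_nonneg.2 (key _ ⟨cond_nonneg hp0 A b, sum_cond p A h0.ne'⟩))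
  have h6 : law p A a * (Real.log M - CH (cond p A a) T lam) ≤
      ∑ b ∈ univ.image A, law p A b * (Real.log M - CH (cond p A b) T lam) := by
    by_cases ha : a ∈ univ.image A
    · exact Finset.single_le_sum (f := fun b => law p A b *
        (Real.log M - CH (cond p A b) T lam)) h5 ha
    · rw [law_eq_zero_of_notMem p A ha, zero_mul]
      exact Finset.sum_nonneg h5
  have h7 : ∑ b ∈ univ.image A, law p A b * (Real.log M - CH (cond p A b) T lam) =
      Real.log M - CH p T (fun ω => (A ω, lam ω)) := by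
    rw [h3]
    simp only [mul_sub, Finset.sum_sub_distrib]
    rw [← Finset.sum_mul, h4, one_mul]
  linarith only [h, h1, h2, h6, h7]

/-- The conditional laws are nonconcentrated. -/
lemma ncf_cond {n : ℕ} {Ω Λ Ξ : Type} [Fintype Ω] {p : Ω → ℝ} (hp : IsLaw p) {lam : Ω → Λ}
    {x : Ω → Ξ} {B : Λ → Option (Fin n) → ℝ} {δ : ℝ} {e : Ξ → ℝ} (h : NCF p lam x B δ e)
    (A : Ω → Bool) (hA : ∀ ω ω', x ω = x ω' → A ω = A ω') {a : Bool} (ha : 0 < law p A a) :
    NCF (cond p A a) lam x B δ e := by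
  classical
  have hp0 := hp.nonneg
  intro ω hω u hu
  obtain ⟨h1, h2⟩ := (cond_pos_iff hp0 A a ω).1 hω
  have h3 := h ω h1 u hu
  have h4 : law (cond p A a) x (x ω) = law p x (x ω) / law p A a := by
    rw [law_cond]
    congr 1
    unfold law
    refine Finset.sum_congr rfl fun ω' _ => ?_
    by_cases hx : x ω' = x ω
    · have : A ω' = a := by rw [hA ω' ω hx, h2]
      simp [hx, this]
    · simp [hx]
  have h5 : ∑ ω', (if x ω' = x ω ∧ |∑ i, u i * B (lam ω') (some i)| ≤ δ then cond p A a ω'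
      else 0) = (∑ ω', (if x ω' = x ω ∧ |∑ i, u i * B (lam ω') (some i)| ≤ δ then p ω'
      else 0)) / law p A a := by
    rw [Finset.sum_div]
    refine Finset.sum_congr rfl fun ω' _ => ?_
    by_cases hx : x ω' = x ω
    · have : A ω' = a := by rw [hA ω' ω hx, h2]
      unfold Pool.Agent.H49.Ent.cond
      rw [if_pos this]
      split_ifs <;> simp
    · rw [if_neg (fun hh => hx hh.1), if_neg (fun hh => hx hh.1), zero_div]
  rw [h4]
  have h6 : (∑ ω', (if x ω' = x ω ∧ |∑ i, u i * B (lam ω') (some i)| ≤ δ then p ω'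
      else 0)) / law p A a ≤ e (x ω) * law p x (x ω) / law p A a :=
    div_le_div_of_nonneg_right h3 ha.le
  calc _ = _ := h5
    _ ≤ _ := h6
    _ = _ := by ring

lemma ex_cond {Ω : Type} [Fintype Ω] {p : Ω → ℝ} (hp : IsLaw p) (f : Ω → ℝ)
    (hf : ∀ ω, 0 ≤ f ω) (A : Ω → Bool) {a : Bool} (ha : 0 < law p A a) :
    law p A a * Ex (cond p A a) f ≤ Ex p f := by
  classical
  unfold Ex
  rw [Finset.mul_sum]
  refine Finset.sum_le_sum fun ω _ => ?_
  unfold Pool.Agent.H49.Ent.cond
  split_ifs with h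
  · rw [div_mul_eq_mul_div, mul_div_cancel₀ _ ha.ne']
  · rw [zero_mul, mul_zero]
    exact mul_nonneg (hp.nonneg ω) (hf ω)

end FIN

open FIN in
theorem fin_thm : FINStmt := by
  classical
  intro n D j k₀ C₀ hcho hj hC₀
  obtain ⟨C₁, hC₁, hcor⟩ := cor n D j k₀ C₀ hcho hj hC₀
  obtain ⟨C₂, hC₂, hfull⟩ := full_thm n C₀ hC₀
  obtain ⟨C₃, hC₃, hmix⟩ := mix_thm n C₀ hC₀
  have hn0 : (0 : ℝ) ≤ n := Nat.cast_nonneg n
  have hl2 : 0 < Real.log 2 := Real.log_pos (by norm_num)
  have hl2' : Real.log 2 ≤ 1 := by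
    have := Real.log_two_lt_d9
    linarith only [hl2, this]
  refine ⟨C₁ * (10 * (n + 1) + 4 * C₂ + C₃), by positivity, ?_⟩
  intro Ω Λ Ξ _ p lam x T pos A B G L u κ γ N δ ε e₁ e₃ e hju hleaf hreg hgr hδ he hex hnc hγ hκ
    he₁ he₁0 he₃0 he₃
  have hp := hleaf.isLaw
  have hp0 := hp.nonneg
  set S : Ξ → Prop := fun ξ => Bad (G (cel (2 ^ (L - u)) pos ξ))
        (crn (2 ^ L) (2 ^ (L - u)) (cel (2 ^ (L - u)) pos ξ))
        (1 / 2 ^ u) D (2 ^ (u * (j + 1)) / 2 ^ L) with hS
  set E : Ω → Bool := fun ω => decide (S (x ω)) with hE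
  have hEx : ∀ ω ω', x ω = x ω' → E ω = E ω' := fun ω ω' h => by simp only [hE, h]
  have hsum : (∑ ω, (if Bad (G (cel (2 ^ (L - u)) pos (x ω)))
        (crn (2 ^ L) (2 ^ (L - u)) (cel (2 ^ (L - u)) pos (x ω)))
        (1 / 2 ^ u) D (2 ^ (u * (j + 1)) / 2 ^ L) then p ω else 0)) = law p E true := by
    unfold law
    refine Finset.sum_congr rfl fun ω _ => ?_
    by_cases h : S (x ω)
    · rw [if_pos h, if_pos (by simp only [hE, h, decide_true])]
    · rw [if_neg h, if_neg (by simp only [hE, h, decide_false]; decide)]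
  rw [hsum]
  set W₀ : ℝ := L / κ + γ + κ + 1 + ε * L with hW₀
  exact by
   have hε : 0 ≤ ε := le_trans (Ex_nonneg hp0 fun ω _ => he (x ω)) hex
   have hL0 : (0 : ℝ) ≤ L := Nat.cast_nonneg L
   have hκ0 : (1 : ℝ) ≤ κ := by exact_mod_cast hκ
   have hγ0 : (0 : ℝ) ≤ γ := Nat.cast_nonneg γ
   have hN0 : (0 : ℝ) ≤ N := Nat.cast_nonneg N
   have hW₀1 : 1 ≤ W₀ := by
     have h1 : 0 ≤ (L : ℝ) / κ := by positivity
     have h2 : 0 ≤ ε * L := by positivity
     rw [hW₀]
     linarith only [hκ0, h1, h2]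
   have hr0 : 0 ≤ (1 - 1 / (n : ℝ)) ^ N ∧ (1 - 1 / (n : ℝ)) ^ N ≤ 1 := by
     have h1 : 0 ≤ 1 - 1 / (n : ℝ) := by
       rcases Nat.eq_zero_or_pos n with h | h
       · rw [h]
         simp
       · have : (1 : ℝ) ≤ n := by exact_mod_cast h
         rw [sub_nonneg, div_le_one (by linarith only [this])]
         exact this
     have h2 : 1 - 1 / (n : ℝ) ≤ 1 := by
       have : 0 ≤ 1 / (n : ℝ) := by positivity
       linarith only [this]
     exact ⟨pow_nonneg h1 N, pow_le_one₀ h1 h2⟩
   set r : ℝ := (1 - 1 / (n : ℝ)) ^ N with hr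
   have hSnn : 0 ≤ (N + 1) * (e₁ + 1) + e₃ + r * L + W₀ := by
     have h1 : 0 ≤ r * L := mul_nonneg hr0.1 hL0
     have h2 : 0 ≤ (N + 1 : ℝ) * (e₁ + 1) := by positivity
     linarith only [he₃0, hW₀1, h1, h2]
   have hgoal : (N + 1 : ℝ) * (e₁ + 1) + e₃ + r * L + L / κ + γ + κ + 1 + ε * L =
       (N + 1) * (e₁ + 1) + e₃ + r * L + W₀ := by
     rw [hW₀]
     ring
   exact by
    rw [hgoal]
    rcases (law_nonneg hp0 E true).eq_or_lt with h0 | hϖ
    · rw [← h0, zero_mul]
      positivity
    -- the data of the conditional laws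
    have hlaw : ∀ a, 0 < law p E a → IsLaw (cond p E a) := fun a ha =>
      ⟨cond_nonneg hp0 E a, sum_cond p E ha.ne'⟩
    have hlf : ∀ a, 0 < law p E a → Leaf n (2 ^ L) C₀ (cond p E a) lam x T pos A B := fun a ha =>
      ⟨hlaw a ha, hleaf.T_lt, hleaf.pos_lt, hleaf.near, hleaf.A_le, hleaf.B_le⟩
    have hlogM : Real.log ((2 ^ L : ℕ) : ℝ) = L * Real.log 2 := by
      push_cast
      rw [Real.log_pow]
    have htime : ∀ a, 0 < law p E a →
        L * Real.log 2 - CH (cond p E a) (fun ω => T (x ω)) lam ≤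
          (e₁ + Real.log 2) / law p E a := by
      intro a ha
      have h1 := time_cond hp lam (fun ω => T (x ω)) E (M := 2 ^ L) (e₁ := e₁) hleaf.T_lt
        (by rw [hlogM]; exact he₁) a
      rw [hlogM] at h1
      rw [le_div_iff₀ ha]
      linarith only [h1]
    have hexc : ∀ a, 0 < law p E a → Ex (cond p E a) (fun ω => e (x ω)) ≤ ε / law p E a := by
      intro a ha
      have h1 := ex_cond hp (fun ω => e (x ω)) (fun ω => he _) E ha
      rw [le_div_iff₀ ha]
      linarith only [hex, h1]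
    have hncc : ∀ a, 0 < law p E a → NCF (cond p E a) lam x B δ e := fun a ha =>
      ncf_cond hp hnc E hEx ha
    -- fullness of the positions for the conditional laws
    have hlow : ∀ a, 0 < law p E a → law p E a * (n * (L * Real.log 2)) -
        (n * (e₁ + Real.log 2) + C₂ * W₀) ≤ law p E a * H (cond p E a) x := by
      intro a ha
      have h1 := hfull Ω Λ Ξ (cond p E a) lam x T pos A B 1 (2 ^ L) L κ γ δ (ε / law p E a)
        ((e₁ + Real.log 2) / law p E a) e (by rw [one_mul]) le_rfl (hlf a ha) hδ he (hexc a ha)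
        (hncc a ha) hγ hκ (htime a ha)
      rw [hlogM] at h1
      have h2 : CH (cond p E a) (fun ω => bas pos (x ω)) (fun ω => cel (2 ^ L) pos (x ω)) ≤
          H (cond p E a) x := by
        have g1 := (hlaw a ha).nonneg
        exact (CH_le_H (hlaw a ha) _ _).trans (H_comp_le g1 x (bas pos))
      have h3 : law p E a * (n * ((e₁ + Real.log 2) / law p E a) +
          C₂ * (L / κ + γ + κ + 1 + ε / law p E a * L)) ≤
          n * (e₁ + Real.log 2) + C₂ * W₀ := by
        have g1 : law p E a * (n * ((e₁ + Real.log 2) / law p E a) +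
          C₂ * (L / κ + γ + κ + 1 + ε / law p E a * L)) =
            n * (e₁ + Real.log 2) + C₂ * (law p E a * (L / κ + γ + κ + 1) + ε * L) := by
          field_simp
        have g2 : law p E a * (L / κ + γ + κ + 1) ≤ L / κ + γ + κ + 1 := by
          have : law p E a ≤ 1 := law_le_one hp E a
          have h0 : 0 ≤ (L : ℝ) / κ + γ + κ + 1 := by positivity
          exact mul_le_of_le_one_left h0 this
        rw [g1, hW₀]
        have := mul_le_mul_of_nonneg_left (add_le_add_left g2 (ε * L)) hC₂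
        linarith only [this]
      have h4 : law p E a * (n * (L * Real.log 2)) - law p E a * H (cond p E a) x ≤
          law p E a * (n * ((e₁ + Real.log 2) / law p E a) +
          C₂ * (L / κ + γ + κ + 1 + ε / law p E a * L)) := by
        rw [← mul_sub]
        exact mul_le_mul_of_nonneg_left (by linarith only [h1, h2]) ha.le
      linarith only [h3, h4]
    -- upper bound for the entropy of the point for the bad cubes
    exact by
     have hup : law p E true * H (cond p E true) x ≤ law p E true * (n * (L * Real.log 2)) +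
         (e₃ + n * (e₁ + Real.log 2) + C₂ * W₀) := by
       have g0 : CH p x E ≤ H p x := CH_le_H hp _ _
       rw [CH_eq_sum hp0] at g0
       have g1 : ∑ b ∈ univ.image E, law p E b * H (cond p E b) x =
           law p E true * H (cond p E true) x + law p E false * H (cond p E false) x := by
         rw [← Fintype.sum_bool (fun b => law p E b * H (cond p E b) x)]
         refine Finset.sum_subset (Finset.subset_univ _) fun b _ hb => ?_
         rw [law_eq_zero_of_notMem p E hb, zero_mul]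
       have g2 : law p E true + law p E false = 1 := by
         rw [← Fintype.sum_bool (fun b => law p E b), ← sum_law_one hp.sum_one E]
         symm
         refine Finset.sum_subset (Finset.subset_univ _) fun b _ hb => ?_
         rw [law_eq_zero_of_notMem p E hb]
       have g3 : law p E false * (n * (L * Real.log 2)) -
         (n * (e₁ + Real.log 2) + C₂ * W₀) ≤ law p E false * H (cond p E false) x := by
         rcases (law_nonneg hp0 E false).eq_or_lt with h0 | h0
         · rw [← h0, zero_mul, zero_mul]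
           have : 0 ≤ n * (e₁ + Real.log 2) + C₂ * W₀ := by positivity
           linarith only [this]
         · exact hlow false h0
       have g4 : law p E false * (n * (L * Real.log 2)) =
           (n * (L * Real.log 2)) - law p E true * (n * (L * Real.log 2)) := by
         have : law p E false = 1 - law p E true := by linarith only [g2]
         rw [this]
         ring
       rw [g1] at g0
       linarith only [he₃, g0, g3, g4]
     have hϖ1 : law p E true ≤ 1 := law_le_one hp E true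
     set ϖ : ℝ := law p E true with hϖdef
     exact by
      have hp' := hlaw true hϖ
      set e₁' : ℝ := (e₁ + Real.log 2) / ϖ with he₁'
      set e₃' : ℝ := (e₃ + n * (e₁ + Real.log 2) + C₂ * W₀) / ϖ with he₃'
      have he₁'0 : 0 ≤ e₁' := by positivity
      have he₃'0 : 0 ≤ e₃' := by positivity
      have hH' : H (cond p E true) x ≤ n * (L * Real.log 2) + e₃' := by
        have h1 : ϖ * H (cond p E true) x ≤ ϖ * (n * (L * Real.log 2) + e₃') := by
          rw [mul_add, he₃', mul_div_cancel₀ _ hϖ.ne']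
          exact hup
        exact le_of_mul_le_mul_left h1 hϖ
      obtain ⟨W, _, q, o, o', l, y, hchn⟩ := chn_thm Ω Λ Ξ (cond p E true) lam x N hp'
      have hm := hmix Ω Λ Ξ W (cond p E true) lam x T pos A B L κ γ N q o o' l y δ (ε / ϖ) e₁' e₃' e
        (hlf true hϖ) hchn hδ he (hexc true hϖ) (hncc true hϖ) hγ hκ (htime true hϖ) he₁'0 he₃'0 hH'
      rw [← hr] at hm
      have hu : u ≤ L ∧ 2 * u ≤ L := by
        have g1 : (j + 2) * u = j * u + 2 * u := Nat.add_mul _ _ _
        rw [g1] at hju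
        constructor <;> omega
      have hKR1 : 2 ^ L = 2 ^ u * 2 ^ (L - u) := by
        rw [← pow_add]
        congr 1
        omega
      have hKR2 : 2 ^ u * 2 ^ (L - 2 * u) = 2 ^ (L - u) := by
        rw [← pow_add]
        congr 1
        omega
      have hf := hfull Ω Λ Ξ (cond p E true) lam x T pos A B (2 ^ u) (2 ^ (L - u)) L κ γ δ (ε / ϖ)
        e₁' e hKR1 Nat.one_le_two_pow (hlf true hϖ) hδ he (hexc true hϖ) (hncc true hϖ) hγ hκ
        (htime true hϖ)
      set W₁ : ℝ := L / κ + γ + κ + 1 + ε / ϖ * L with hW₁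
      exact by
       have hW₁0 : 0 ≤ W₁ := by positivity
       set e₂' : ℝ := n * e₁' + C₂ * W₁ with he₂'
       set e₄' : ℝ := r * (n * (L * Real.log 2) + e₃') + (n * e₁' + e₃' + C₃ * W₁) with he₄'
       have he₂'0 : 0 ≤ e₂' := by positivity
       have he₄'0 : 0 ≤ e₄' := by
         have := hr0.1
         positivity
       have hc := hcor Ω Λ Ξ W (cond p E true) lam x T pos A B G (2 ^ u) (2 ^ (L - 2 * u)) (2 ^ L) N q
         o o' l y e₁' e₂' e₃' e₄' (by rw [hKR2, hKR1]) Nat.one_le_two_pow (by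
           rw [← pow_mul]
           exact Nat.pow_le_pow_right (by norm_num) (by linarith only [hju, Nat.zero_le u])) (hlf true hϖ) hchn
       rw [hKR2] at hc
       push_cast at hc
       have hc' := hc (by
           intro ω hω
           exact hreg ω ((cond_pos_iff hp0 E true ω).1 hω).1) (by
           intro ω hω
           exact hgr ω ((cond_pos_iff hp0 E true ω).1 hω).1) (by
           intro ω hω
           have h1 := ((cond_pos_iff hp0 E true ω).1 hω).2
           have h2 : S (x ω) := of_decide_eq_true h1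
           rw [← pow_mul]
           exact h2) he₁'0 he₂'0 he₃'0 he₄'0 (by
           rw [Real.log_pow]
           exact htime true hϖ) (by
           push_cast at hf
           exact hf) (by
           rw [Real.log_pow]
           exact hH') hm
       rw [Real.log_pow] at hc'
       -- the final computation
       exact by
        have k1 : ϖ * e₁' = e₁ + Real.log 2 := by
          rw [he₁', mul_div_cancel₀ _ hϖ.ne']
        have k3 : ϖ * e₃' = e₃ + n * (e₁ + Real.log 2) + C₂ * W₀ := by
          rw [he₃', mul_div_cancel₀ _ hϖ.ne']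
        have kW : ϖ * W₁ ≤ W₀ := by
          have g1 : ϖ * W₁ = ϖ * (L / κ + γ + κ + 1) + ε * L := by
            rw [hW₁]
            field_simp
          have h0 : 0 ≤ (L : ℝ) / κ + γ + κ + 1 := by positivity
          rw [g1, hW₀]
          have g3 := mul_le_of_le_one_left h0 hϖ1
          linarith only [g3]
        have kC2 : C₂ * (ϖ * W₁) ≤ C₂ * W₀ := mul_le_mul_of_nonneg_left kW hC₂
        have kC3 : C₃ * (ϖ * W₁) ≤ C₃ * W₀ := mul_le_mul_of_nonneg_left kW hC₃
        have kn : (n : ℝ) * (e₁ + Real.log 2) ≤ n * (e₁ + 1) :=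
          mul_le_mul_of_nonneg_left (by linarith only [hl2']) hn0
        have kr : r * (ϖ * (n * (L * Real.log 2)) + ϖ * e₃') ≤ n * (r * L) + ϖ * e₃' := by
          have g1 : ϖ * (n * (L * Real.log 2)) ≤ n * L := by
            have h1 : n * (L * Real.log 2) ≤ (n : ℝ) * L := by
              have := mul_le_mul_of_nonneg_left hl2' (mul_nonneg hn0 hL0)
              linarith only [this]
            have h2 : 0 ≤ (n : ℝ) * (L * Real.log 2) := by positivity
            exact (mul_le_of_le_one_left h2 hϖ1).trans h1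
          have g2 : r * (ϖ * (n * (L * Real.log 2))) ≤ r * (n * L) :=
            mul_le_mul_of_nonneg_left g1 hr0.1
          have g3 : r * (ϖ * e₃') ≤ 1 * (ϖ * e₃') :=
            mul_le_mul_of_nonneg_right hr0.2 (by positivity)
          linarith only [g2, g3]
        set V : ℝ := (N + 1) * (e₁ + 1) + e₃ + r * L + W₀ with hV
        have v1 : 0 ≤ (N + 1 : ℝ) * (e₁ + 1) := by positivity
        exact by
         have v2 : 0 ≤ r * L := mul_nonneg hr0.1 hL0
         have v3 : (e₁ + 1) ≤ (N + 1) * (e₁ + 1) := le_mul_of_one_le_left (by linarith only [he₁0]) (by linarith only)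
         have v4 : (n : ℝ) * (e₁ + 1) ≤ n * ((N + 1) * (e₁ + 1)) := mul_le_mul_of_nonneg_left v3 hn0
         have v5 : (N : ℝ) * (e₁ + 2) ≤ 2 * ((N + 1) * (e₁ + 1)) := by
           have := mul_nonneg hN0 he₁0
           linarith only [he₁0, this]
         have kN : ϖ * (N * (e₁' + 1) + 1) ≤ N * (e₁ + 2) + 1 := by
           have g1 : ϖ * (N * (e₁' + 1) + 1) = N * (ϖ * e₁') + N * ϖ + ϖ := by ring
           rw [g1, k1]
           have : (N : ℝ) * ϖ ≤ N * 1 := mul_le_mul_of_nonneg_left hϖ1 hN0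
           have h9 := mul_le_mul_of_nonneg_left hl2' hN0
           linarith only [hϖ1, this, h9]
         have key : ϖ * (e₂' + e₃' + e₄' + N * (e₁' + 1) + 1) ≤ (10 * (n + 1) + 4 * C₂ + C₃) * V := by
           have g1 : ϖ * (e₂' + e₃' + e₄' + N * (e₁' + 1) + 1) =
               (n * (ϖ * e₁') + C₂ * (ϖ * W₁)) + ϖ * e₃' +
               (r * (ϖ * (n * (L * Real.log 2)) + ϖ * e₃') + (n * (ϖ * e₁') + ϖ * e₃' +
                 C₃ * (ϖ * W₁))) + ϖ * (N * (e₁' + 1) + 1) := by
             rw [he₂', he₄']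
             ring
           have w1 : (n : ℝ) * ((N + 1) * (e₁ + 1)) ≤ n * V :=
             mul_le_mul_of_nonneg_left (by rw [hV]; linarith only [he₃0, hW₀1, v2]) hn0
           have w2 : (n : ℝ) * (r * L) ≤ n * V :=
             mul_le_mul_of_nonneg_left (by rw [hV]; linarith only [he₁0, he₃0, hW₀1, v3]) hn0
           have w3 : C₂ * W₀ ≤ C₂ * V := mul_le_mul_of_nonneg_left (by rw [hV]; linarith only [he₁0, he₃0, v2, v3]) hC₂
           have w4 : C₃ * W₀ ≤ C₃ * V := mul_le_mul_of_nonneg_left (by rw [hV]; linarith only [he₁0, he₃0, v2, v3]) hC₃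
           have w5 : (N + 1 : ℝ) * (e₁ + 1) ≤ V := by rw [hV]; linarith only [he₃0, hW₀1, v2]
           have w6 : e₃ ≤ V := by rw [hV]; linarith only [he₁0, hW₀1, v2, v3]
           have w7 : 1 ≤ V := by rw [hV]; linarith only [he₁0, he₃0, hW₀1, v2, v3]
           have rhs : (10 * (n + 1) + 4 * C₂ + C₃) * V =
               10 * (n * V) + 10 * V + 4 * (C₂ * V) + C₃ * V := by ring
           have w8 : (0 : ℝ) ≤ n * V := by
             have : 0 ≤ V := by linarith only [he₁0, he₃0, hW₀1, v2, v3]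
             positivity
           rw [g1, k1, rhs]
           linarith only [he₁0, he₃0, hW₀1, k3, kC2, kC3, kn, kr, v2, v3, v4, v5, kN, w1, w2, w3, w4, w8, kN, kr, k3, kC2, kC3, kn, v4, v5, w1, w2, w3, w4, w5, w6, w7, w8]
         exact by
          calc ϖ * (u * Real.log 2) ≤ ϖ * (C₁ * (e₂' + e₃' + e₄' + N * (e₁' + 1) + 1)) :=
                mul_le_mul_of_nonneg_left hc' hϖ.le
            _ = C₁ * (ϖ * (e₂' + e₃' + e₄' + N * (e₁' + 1) + 1)) := by ring
            _ ≤ C₁ * ((10 * (n + 1) + 4 * C₂ + C₃) * V) := mul_le_mul_of_nonneg_left key hC₁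
            _ = _ := by ring

end Pool.KS3
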