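import Pool.Agent.H37.S3.PRE

/-!
# The budgets along the chain
-/

set_option autoImplicit false

namespace Pool.KS3

open Finset Real
open Pool.Agent.H49.Ent Pool.Agent.H32.Dense Pool.STK Pool.KAF Pool.KAL

/-- The point is near the line. -/
lemma near_line {n M : ℕ} {C₀ : ℝ} {Ω Λ Ξ : Type} [Fintype Ω] {p : Ω → ℝ} {lam : Ω → Λ}
    {x : Ω → Ξ} {T : Ξ → ℕ} {pos : Ξ → Option (Fin n) → ℕ} {A B : Λ → Option (Fin n) → ℝ}
    (hL : Leaf n M C₀ p lam x T pos A B) (ω : Ω) :
    ((T (x ω) : ℝ) / M ∈ Set.Icc (0 : ℝ) 1) ∧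
    ∀ i, |rp M pos (x ω) i - (A (lam ω) i + (T (x ω) : ℝ) / M * B (lam ω) i)| ≤ C₀ / M := by
  refine ⟨⟨by positivity, ?_⟩, fun i => hL.near ω i⟩
  have h1 := hL.T_lt ω
  have h2 : (0 : ℝ) < M := by
    have : 0 < M := by omega
    exact_mod_cast this
  rw [div_le_one h2]
  exact_mod_cast h1.le

/-- The forward budget of a chain. -/
lemma go (hLIN : LINStmt) (hBUD : BUDStmt) (n D : ℕ) (C₁ : ℝ) (hC₁ : 1 ≤ C₁) :
    ∃ C : ℝ, 0 ≤ C ∧ ∀ (Ω Λ Ξ W Γ : Type) [Fintype Ω] [Fintype W] (p : Ω → ℝ) (lam : Ω → Λ)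
      (x : Ω → Ξ) (T : Ξ → ℕ) (pos : Ξ → Option (Fin n) → ℕ) (A B : Λ → Option (Fin n) → ℝ)
      (M N : ℕ) (q : W → ℝ) (o o' : ℕ → W → Ω) (l : ℕ → W → Λ) (y : ℕ → W → Ξ)
      (β : Ξ → Γ) (P : Γ → MvPolynomial (Option (Fin n)) ℝ) (e₁ : ℝ), 1 ≤ M →
      Leaf n M C₁ p lam x T pos A B → IsChain p lam x N q o o' l y →
      (∀ w, 0 < q w → P (β (y 0 w)) ≠ 0 ∧ (P (β (y 0 w))).totalDegree ≤ D) →
      Real.log M - CH p (fun ω => T (x ω)) lam ≤ e₁ →
      Ex q (fun w => Real.log (Psi (P (β (y 0 w))) (C₁ / M) (rp M pos (y N w)))) ≤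
        Ex q (fun w => Real.log (Psi (P (β (y 0 w))) (C₁ / M) (rp M pos (y 0 w)))) +
          2 * D * (H p (fun ω => β (x ω)) + N * (e₁ + C)) + N * C := by
  classical
  obtain ⟨c₁, hc₁, hlin⟩ := hLIN n D C₁ hC₁
  obtain ⟨C, hC, hbud⟩ := hBUD D
  refine ⟨C + 2 * c₁, by positivity, ?_⟩
  intro Ω Λ Ξ W Γ _ _ p lam x T pos A B M N q o o' l y β P e₁ hM hL hch hP he₁
  have hM0 : 0 < M := hM
  have hq0 := hch.isLaw.nonneg
  -- the polynomial along the line
  have hex : ∀ (P : MvPolynomial (Option (Fin n)) ℝ) (a b : Option (Fin n) → ℝ),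
      ∃ (m : ℝ) (g : Polynomial ℝ), P ≠ 0 → P.totalDegree ≤ D → (∀ i, |b i| ≤ C₁) →
      g.natDegree ≤ D ∧ (∃ s ∈ Set.Icc (0 : ℝ) 1, Real.exp m ≤ |g.eval s|) ∧
      ∀ t ∈ Set.Icc (0 : ℝ) 1, ∀ z : Option (Fin n) → ℝ,
        (∀ i, |z i - (a i + t * b i)| ≤ C₁ / M) →
        |g.eval t| ≤ Real.exp (Real.log (Psi P (C₁ / M) z) + c₁) ∧
        m - D * Real.log M ≤ Real.log (Psi P (C₁ / M) z) + c₁ ∧
        Real.log (Psi P (C₁ / M) z) ≤ m + c₁ := by
    intro P a b
    by_cases h : P ≠ 0 ∧ P.totalDegree ≤ D ∧ ∀ i, |b i| ≤ C₁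
    · obtain ⟨m, g, hg⟩ := hlin M P a b hM h.1 h.2.1 h.2.2
      exact ⟨m, g, fun _ _ _ => hg⟩
    · exact ⟨0, 0, fun h1 h2 h3 => absurd ⟨h1, h2, h3⟩ h⟩
  choose mm gg hmg using hex
  have key := hbud W Ξ Λ Γ Unit Unit q M N y l (fun w => β (y 0 w)) (fun _ => ())
    (fun ξ => T ξ % M) (fun b ξ => Real.log (Psi (P b) (C₁ / M) (rp M pos ξ)))
    (fun b ll => mm (P b) (A ll) (B ll)) (fun b ll _ => gg (P b) (A ll) (B ll)) c₁ e₁
    hch.isLaw
    (fun i _ w => Nat.mod_lt _ hM0)
    (by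
      intro i hi w hw
      have h1 := hP w hw
      have h2 : ∀ k, |B (l i w) k| ≤ C₁ := by
        intro k
        rw [← hch.line w hw i hi]
        exact hL.B_le _ k
      have h3 := hmg (P (β (y 0 w))) (A (l i w)) (B (l i w)) h1.1 h1.2 h2
      refine ⟨(), h3.1, h3.2.1, ?_⟩
      intro w' hw' hb hl
      have h4 := near_line hL (o i w')
      rw [hch.start w' hw' i hi, hch.line w' hw' i hi] at h4
      have h5 : T (y i w') % M = T (y i w') := by
        refine Nat.mod_eq_of_lt ?_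
        rw [← hch.start w' hw' i hi]
        exact hL.T_lt _
      rw [h5]
      rw [← hb, ← hl]
      have h6 := hmg (P (β (y 0 w'))) (A (l i w')) (B (l i w')) (hP w' hw').1 (hP w' hw').2
        (by rw [hl]; exact h2)
      exact (h6.2.2 _ h4.1 _ h4.2).1)
    (by
      intro i hi w hw
      have h1 := hP w hw
      have h2 : ∀ k, |B (l i w) k| ≤ C₁ := by
        intro k
        rw [← hch.line w hw i hi]
        exact hL.B_le _ k
      have h3 := hmg (P (β (y 0 w))) (A (l i w)) (B (l i w)) h1.1 h1.2 h2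
      have h4 := near_line hL (o i w)
      rw [hch.start w hw i hi, hch.line w hw i hi] at h4
      exact (h3.2.2 _ h4.1 _ h4.2).2.1)
    (by
      intro i hi w hw
      have h1 := hP w hw
      have h2 : ∀ k, |B (l i w) k| ≤ C₁ := by
        intro k
        rw [← hch.line w hw i hi]
        exact hL.B_le _ k
      have h3 := hmg (P (β (y 0 w))) (A (l i w)) (B (l i w)) h1.1 h1.2 h2
      have h4 := near_line hL (o' i w)
      rw [hch.stop w hw i hi, hch.line' w hw i hi] at h4
      exact (h3.2.2 _ h4.1 _ h4.2).2.2)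
    (by
      intro i hi
      have h1 : CI q (y 0) (l i) (y i) := by
        refine CI_of_le hq0 ?_
        rw [← hch.ci1 i hi]
        refine CH_mono_cond hq0 ?_
        intro ω ω' _ _ h
        simp only [Prod.mk.injEq] at h ⊢
        tauto
      have h2 : CI q (fun w => β (y 0 w)) (l i) (y i) := h1.mono_left hq0 (by
        intro ω ω' _ _ h
        exact congrArg β (Prod.ext_iff.mp h).1)
      have h3 : CI q (fun w => β (y 0 w)) (l i) (fun w => (y i w, ())) := h2.congr hq0 (by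
        intro ω ω' _ _ h
        exact Prod.ext h rfl) (by
        intro ω ω' _ _ h
        exact (Prod.ext_iff.mp h).1)
      unfold CI at h3
      rw [← h3]
      refine CH_congr hq0 (fun _ _ _ _ h => (Prod.ext_iff.mp h).1)
        (fun _ _ _ _ h => (Prod.ext_iff.mp h).1) ?_ ?_ <;>
      · intro ω ω' _ _ h
        simp only [Prod.mk.injEq] at h ⊢
        tauto)
    (by
      intro i hi
      have h1 : CI q (y 0) (y (i + 1)) (l i) := by
        refine CI_of_le hq0 ?_
        rw [← hch.ci2 i hi]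
        refine CH_mono_cond hq0 ?_
        intro ω ω' _ _ h
        simp only [Prod.mk.injEq] at h ⊢
        tauto
      have h2 : CI q (fun w => β (y 0 w)) (y (i + 1)) (l i) := h1.mono_left hq0 (by
        intro ω ω' _ _ h
        exact congrArg β (Prod.ext_iff.mp h).1)
      have h3 : CI q (fun w => β (y 0 w)) (y (i + 1)) (fun w => (l i w, ())) :=
        h2.congr hq0 (by
        intro ω ω' _ _ h
        exact Prod.ext h rfl) (by
        intro ω ω' _ _ h
        exact (Prod.ext_iff.mp h).1)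
      unfold CI at h3
      rw [← h3]
      refine CH_congr hq0 (fun _ _ _ _ h => (Prod.ext_iff.mp h).1)
        (fun _ _ _ _ h => (Prod.ext_iff.mp h).1) ?_ ?_ <;>
      · intro ω ω' _ _ h
        simp only [Prod.mk.injEq] at h ⊢
        tauto)
    (by
      intro i hi
      have h1 : CH q (fun w => T (y i w) % M) (fun w => (l i w, ())) =
          CH p (fun ω => T (x ω)) lam := by
        rw [← (hch.marg i hi).CH (fun ω => T (x ω)) lam]
        have e1 : ∀ w, 0 < q w → T (y i w) % M = T (x (o i w)) := by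
          intro w hw
          rw [hch.start w hw i hi]
          refine Nat.mod_eq_of_lt ?_
          rw [← hch.start w hw i hi]
          exact hL.T_lt _
        refine CH_congr hq0 ?_ ?_ ?_ ?_
        · intro ω ω' a b h
          have := (Prod.ext_iff.mp h).1
          simp only at this
          rw [e1 ω a, e1 ω' b] at this
          exact this
        · intro ω ω' a b h
          have := (Prod.ext_iff.mp h).1
          simp only at this ⊢
          rw [e1 ω a, e1 ω' b]
          exact this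
        · intro ω ω' a b h
          have := (Prod.ext_iff.mp h).1
          simp only at this ⊢
          rw [hch.line ω a i hi, hch.line ω' b i hi]
          exact this
        · intro ω ω' a b h
          have h' : lam (o i ω) = lam (o i ω') := h
          rw [hch.line ω a i hi, hch.line ω' b i hi] at h'
          exact Prod.ext h' rfl
      rw [h1]
      exact he₁)
  refine key.trans ?_
  have h1 : CH q (fun w => β (y 0 w)) (fun w => (y N w, ())) ≤ H p (fun ω => β (x ω)) := by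
    refine (CH_le_H hch.isLaw _ _).trans ?_
    have h2 : H q (fun w => β (y 0 w)) = H p (fun ω => β (x ω)) := by
      have e1 : ∀ b, law q (fun w => β (y 0 w)) b = law p (fun ω => β (x ω)) b := by
        intro b
        exact law_comp_eq (hch.cell 0 (Nat.zero_le _)) β b
      exact H_eq_of_lawS3 e1
    rw [h2]
  have h2 : (0 : ℝ) ≤ 2 * D := by positivity
  have h3 := mul_le_mul_of_nonneg_left h1 h2
  have h4 : (0 : ℝ) ≤ N := Nat.cast_nonneg N
  have h5 : (0 : ℝ) ≤ N * c₁ := mul_nonneg h4 hc₁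
  have h6 : (0 : ℝ) ≤ N * C := mul_nonneg h4 hC
  have h7 : (0 : ℝ) ≤ 2 * D * (N * c₁) := mul_nonneg h2 h5
  nlinarith

end Pool.KS3
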